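import Mathlib

set_option autoImplicit false

/-!
# Sharp growth of the Caratheodory family on the Euclidean ball of `ℂⁿ`, `n ≥ 2`

For `n ≥ 2` and `0 < r < 1` we determine `m_n(r) = max {‖h z‖ : h ∈ M, ‖z‖ = r}`.

Upper bound: for a mapping `h ∈ M` and the analytic disc
`f(ζ) = ζ (ρ e₁ + σ (ζ - y)/(1 - ȳ ζ) e₂)`, whose boundary lies in the unit sphere, the function
`K(ζ) = (1 - ȳζ) (ρ(ζ-y)⟨h(f ζ), e₁⟩ + σ(1-ȳζ)⟨h(f ζ), e₂⟩)` satisfies
`Re (ζ̄ K(ζ)/ζ) ≥ 0` on `|ζ| = 1`, which yields a sharp linear inequality for `h(f(x))`.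
Lower bound: explicit extremal mappings.
-/

namespace Pool.Agent.Results.MP_ea326e_an.SharpGrowth

open Complex Metric Set

/-- The Caratheodory family `M` of the Euclidean unit ball of `ℂⁿ`: holomorphic maps `h` of the
ball into `ℂⁿ` with `h 0 = 0`, `Dh(0) = I` and `Re ⟨h z, z⟩ > 0` for `0 < ‖z‖ < 1`.
(`h` is a function on all of `ℂⁿ`; only its restriction to the unit ball matters.) -/
def Carath (n : ℕ) : Set (EuclideanSpace ℂ (Fin n) → EuclideanSpace ℂ (Fin n)) :=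
  {h | DifferentiableOn ℂ h (ball 0 1) ∧ h 0 = 0 ∧
    fderiv ℂ h 0 = ContinuousLinearMap.id ℂ (EuclideanSpace ℂ (Fin n)) ∧
    ∀ z ∈ ball (0 : EuclideanSpace ℂ (Fin n)) 1, z ≠ 0 → 0 < (inner ℂ z (h z)).re}

/-- The set of all values `‖h z‖` with `h ∈ M` and `‖z‖ = r`. -/
def growthValues (n : ℕ) (r : ℝ) : Set ℝ :=
  {t | ∃ h ∈ Carath n, ∃ z : EuclideanSpace ℂ (Fin n), ‖z‖ = r ∧ ‖h z‖ = t}

/-- The positive root `X = XX w` of `(2-w) X^2 + (1-2w+w^3) X = w^2`. -/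
noncomputable def XX (w : ℝ) : ℝ :=
  (√((1 - 2 * w + w ^ 3) ^ 2 + 4 * (2 - w) * w ^ 2) - (1 - 2 * w + w ^ 3)) / (2 * (2 - w))

/-- The square of the radius, as a function of the parameter `w ∈ (0,1)`. -/
noncomputable def RR (w : ℝ) : ℝ :=
  XX w - (w - XX w) * (XX w - w ^ 2) / ((1 - w) ^ 2 * (1 + w))

/-- The square of the sharp bound, as a function of the parameter `w ∈ (0,1)`. -/
noncomputable def MM (w : ℝ) : ℝ :=
  w * (1 + w) * XX w * (1 - XX w) / ((1 - w) ^ 2 * (w - XX w))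

theorem re_nonneg_of_sphere {Ψ : ℂ → ℂ} (hd : DiffContOnCl ℂ Ψ (ball 0 1))
    (hb : ∀ ζ : ℂ, ‖ζ‖ = 1 → 0 ≤ (Ψ ζ).re) {x : ℂ} (hx : ‖x‖ < 1) : 0 ≤ (Ψ x).re := by
  have h1 : ‖cexp (-Ψ x)‖ ≤ 1 := by
    refine Complex.norm_le_of_forall_mem_frontier_norm_le (U := ball (0:ℂ) 1) (f := fun z => cexp (-Ψ z))
      isBounded_ball ?_ ?_ (subset_closure (by simpa using hx))
    · exact (Complex.differentiable_exp.diffContOnCl.comp hd.neg (fun _ _ => mem_univ _))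
    · intro z hz
      rw [frontier_ball (0:ℂ) one_ne_zero] at hz
      have hz' : ‖z‖ = 1 := by simpa using hz
      rw [Complex.norm_exp]
      have := hb z hz'
      simp only [neg_re]
      exact Real.exp_le_one_iff.mpr (by linarith)
  rw [Complex.norm_exp] at h1
  have := Real.exp_le_one_iff.mp h1
  simpa using this

theorem disc_lemma {K : ℂ → ℂ} (hd : DifferentiableOn ℂ K (closedBall 0 1))
    (hb : ∀ ζ : ℂ, ‖ζ‖ = 1 → 0 ≤ ((starRingEnd ℂ) ζ * K ζ).re) {x : ℝ} (hx0 : 0 < x) (hx1 : x < 1) :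
    (1 - x ^ 2) * (K 0).re ≤ (K x).re := by
  have hball : closedBall (0:ℂ) 1 ∈ nhds (0:ℂ) := closedBall_mem_nhds 0 one_pos
  have hds : DifferentiableOn ℂ (dslope K 0) (closedBall 0 1) :=
    (Complex.differentiableOn_dslope hball).2 hd
  have hΨ : DiffContOnCl ℂ (fun ζ => dslope K 0 ζ + (starRingEnd ℂ) (K 0) * ζ) (ball 0 1) := by
    refine DifferentiableOn.diffContOnCl ?_
    rw [closure_ball (0:ℂ) one_ne_zero]
    exact hds.add ((differentiable_const _).mul differentiable_id).differentiableOn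
  have key := re_nonneg_of_sphere hΨ ?_ (x := (x:ℂ)) (by simp [abs_of_pos hx0, hx1])
  · have hx0' : (x:ℂ) ≠ 0 := by exact_mod_cast hx0.ne'
    rw [dslope_of_ne _ hx0'] at key
    simp only [slope_def_field, sub_zero, add_re] at key
    have e1 : ((K x - K 0) / (x:ℂ)).re = ((K x).re - (K 0).re) / x := by
      rw [div_ofReal_re]; simp
    have e2 : ((starRingEnd ℂ) (K 0) * (x:ℂ)).re = (K 0).re * x := by
      simp
    rw [e1, e2] at key
    have : 0 ≤ ((K x).re - (K 0).re) + (K 0).re * x * x := by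
      have := mul_nonneg key hx0.le
      field_simp at this
      nlinarith
    nlinarith
  · intro ζ hζ
    have hζ0 : ζ ≠ 0 := by
      intro h; rw [h] at hζ; simp at hζ
    rw [dslope_of_ne _ hζ0]
    have hinv : ζ⁻¹ = (starRingEnd ℂ) ζ := by
      rw [Complex.inv_def, Complex.normSq_eq_norm_sq, hζ]; simp
    have e1 : slope K 0 ζ = (starRingEnd ℂ) ζ * K ζ - (starRingEnd ℂ) ζ * K 0 := by
      rw [slope_def_field, sub_zero, div_eq_mul_inv, hinv]; ring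
    rw [e1]
    have := hb ζ hζ
    simp only [add_re, sub_re, mul_re, conj_re, conj_im] at this ⊢
    nlinarith

section disc
variable {E : Type*} [NormedAddCommGroup E] [InnerProductSpace ℂ E]

theorem normSq_one_sub (y ζ : ℂ) : normSq (1 - (starRingEnd ℂ) y * ζ) - normSq (ζ - y)
    = (1 - normSq ζ) * (1 - normSq y) := by
  simp only [normSq_apply, sub_re, sub_im, mul_re, mul_im, one_re, one_im, conj_re, conj_im]
  ring

theorem one_sub_ne_zero {y ζ : ℂ} (hy : ‖y‖ < 1) (hζ : ‖ζ‖ ≤ 1) : 1 - (starRingEnd ℂ) y * ζ ≠ 0 := by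
  intro h
  have h1 : (starRingEnd ℂ) y * ζ = 1 := by linear_combination -h
  have h2 : ‖(starRingEnd ℂ) y * ζ‖ = 1 := by rw [h1]; simp
  rw [norm_mul, RCLike.norm_conj] at h2
  nlinarith [norm_nonneg y, norm_nonneg ζ]

theorem phi_le {y ζ : ℂ} (hy : ‖y‖ < 1) (hζ : ‖ζ‖ ≤ 1) :
    ‖(ζ - y) / (1 - (starRingEnd ℂ) y * ζ)‖ ≤ 1 := by
  have h0 := one_sub_ne_zero hy hζ
  rw [norm_div, div_le_one (norm_pos_iff.mpr h0)]
  have h1 := normSq_one_sub y ζ
  simp only [normSq_eq_norm_sq] at h1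
  have h2 : 0 ≤ (1 - ‖ζ‖ ^ 2) * (1 - ‖y‖ ^ 2) := by
    apply mul_nonneg <;> nlinarith [norm_nonneg y, norm_nonneg ζ]
  exact le_of_sq_le_sq (by nlinarith) (norm_nonneg _)

theorem norm_comb_sq {e1 e2 : E} (he1 : ‖e1‖ = 1) (he2 : ‖e2‖ = 1) (he : inner ℂ e1 e2 = 0)
    (a b : ℂ) : ‖a • e1 + b • e2‖ ^ 2 = ‖a‖ ^ 2 + ‖b‖ ^ 2 := by
  have := norm_add_sq_eq_norm_sq_add_norm_sq_of_inner_eq_zero (𝕜 := ℂ) (a • e1) (b • e2) (by
    rw [inner_smul_left, inner_smul_right, he]; simp)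
  rw [norm_smul, norm_smul, he1, he2] at this
  nlinarith [this]

/-- the analytic disc -/
noncomputable def disc (e1 e2 : E) (ρ σ : ℝ) (y : ℂ) (ζ : ℂ) : E :=
  ζ • ((ρ : ℂ) • e1 + ((σ : ℂ) * ((ζ - y) / (1 - (starRingEnd ℂ) y * ζ))) • e2)

theorem norm_disc_le {e1 e2 : E} (he1 : ‖e1‖ = 1) (he2 : ‖e2‖ = 1) (he : inner ℂ e1 e2 = 0)
    {ρ σ : ℝ} (hρσ : ρ ^ 2 + σ ^ 2 = 1) {y ζ : ℂ} (hy : ‖y‖ < 1) (hζ : ‖ζ‖ ≤ 1) :
    ‖disc e1 e2 ρ σ y ζ‖ ≤ ‖ζ‖ := by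
  unfold disc
  rw [norm_smul]
  have h1 := norm_comb_sq he1 he2 he (ρ : ℂ) ((σ : ℂ) * ((ζ - y) / (1 - (starRingEnd ℂ) y * ζ)))
  have h2 := phi_le hy hζ
  rw [norm_mul] at h1
  have h3 : ‖(ρ : ℂ) • e1 + ((σ : ℂ) * ((ζ - y) / (1 - (starRingEnd ℂ) y * ζ))) • e2‖ ≤ 1 := by
    apply le_of_sq_le_sq _ zero_le_one
    rw [h1]
    set a := ‖(ζ - y) / (1 - (starRingEnd ℂ) y * ζ)‖
    have ha : 0 ≤ a := norm_nonneg _
    have : a ^ 2 ≤ 1 := by nlinarith
    simp only [Complex.norm_real, Real.norm_eq_abs]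
    rw [mul_pow, sq_abs, sq_abs]
    nlinarith [mul_le_mul_of_nonneg_left this (sq_nonneg σ)]
  nlinarith [norm_nonneg ζ]

theorem differentiableAt_disc (e1 e2 : E) (ρ σ : ℝ) {y ζ : ℂ} (hy : ‖y‖ < 1) (hζ : ‖ζ‖ ≤ 1) :
    DifferentiableAt ℂ (disc e1 e2 ρ σ y) ζ := by
  unfold disc
  have h0 := one_sub_ne_zero hy hζ
  apply DifferentiableAt.smul differentiableAt_id
  apply DifferentiableAt.add (differentiableAt_const _)
  apply DifferentiableAt.smul_const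
  apply DifferentiableAt.const_mul
  apply DifferentiableAt.div
  · exact (differentiableAt_id).sub (differentiableAt_const _)
  · exact (differentiableAt_const _).sub ((differentiableAt_const _).mul differentiableAt_id)
  · exact h0

theorem hasDerivAt_disc_zero (e1 e2 : E) (ρ σ : ℝ) {y : ℂ} (hy : ‖y‖ < 1) :
    HasDerivAt (disc e1 e2 ρ σ y) ((ρ : ℂ) • e1 + (-(σ : ℂ) * y) • e2) 0 := by
  have h0 : 1 - (starRingEnd ℂ) y * 0 ≠ 0 := one_sub_ne_zero hy (by simp)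
  have hd : DifferentiableAt ℂ (fun ζ : ℂ => (ρ : ℂ) • e1 + ((σ : ℂ) * ((ζ - y) / (1 - (starRingEnd ℂ) y * ζ))) • e2) 0 := by
    apply DifferentiableAt.add (differentiableAt_const _)
    apply DifferentiableAt.smul_const
    apply DifferentiableAt.const_mul
    apply DifferentiableAt.div
    · exact (differentiableAt_id).sub (differentiableAt_const _)
    · exact (differentiableAt_const _).sub ((differentiableAt_const _).mul differentiableAt_id)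
    · exact h0
  have := (hasDerivAt_id (0:ℂ)).smul hd.hasDerivAt
  simp only [id_eq, zero_smul, one_smul, zero_add] at this
  convert this using 1
  · rfl
  · simp

/-- The certificate along one analytic disc, before letting `s → 1`. -/
theorem cert_s {h : E → E} (hd : DifferentiableOn ℂ h (ball 0 1)) (h0 : h 0 = 0)
    (h1 : HasFDerivAt h (ContinuousLinearMap.id ℂ E) 0)
    (hp : ∀ z ∈ ball (0:E) 1, 0 ≤ (inner ℂ z (h z)).re)
    {e1 e2 : E} (he1 : ‖e1‖ = 1) (he2 : ‖e2‖ = 1) (he : inner ℂ e1 e2 = 0)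
    {ρ σ x : ℝ} (hρσ : ρ ^ 2 + σ ^ 2 = 1) {y : ℂ} (hy : ‖y‖ < 1) (hx0 : 0 < x) (hx1 : x < 1)
    {s : ℝ} (hs0 : 0 < s) (hs1 : s < 1) :
    -(x * (1 - x ^ 2) * s * y.re) ≤
      ((1 - (starRingEnd ℂ) y * x) * (ρ * (x - y) * inner ℂ e1 (h ((s : ℂ) • disc e1 e2 ρ σ y x))
        + σ * (1 - (starRingEnd ℂ) y * x) * inner ℂ e2 (h ((s : ℂ) • disc e1 e2 ρ σ y x)))).re := by
  set F : ℂ → E := fun ζ => (s : ℂ) • disc e1 e2 ρ σ y ζ with hF
  have hFball : ∀ ζ : ℂ, ‖ζ‖ ≤ 1 → F ζ ∈ ball (0:E) 1 := by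
    intro ζ hζ
    have := norm_disc_le he1 he2 he hρσ hy hζ
    simp only [hF, mem_ball_zero_iff, norm_smul, norm_real, Real.norm_eq_abs, abs_of_pos hs0]
    nlinarith [norm_nonneg (disc e1 e2 ρ σ y ζ)]
  have hFd : ∀ ζ : ℂ, ‖ζ‖ ≤ 1 → DifferentiableAt ℂ F ζ := fun ζ hζ =>
    (differentiableAt_disc e1 e2 ρ σ hy hζ).const_smul _
  have hhF : ∀ ζ : ℂ, ‖ζ‖ ≤ 1 → DifferentiableAt ℂ (fun ζ => h (F ζ)) ζ := by
    intro ζ hζ
    have := (hd.differentiableAt (isOpen_ball.mem_nhds (hFball ζ hζ)))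
    exact DifferentiableAt.comp ζ this (hFd ζ hζ)
  set K : ℂ → ℂ := fun ζ => (1 - (starRingEnd ℂ) y * ζ) * (ρ * (ζ - y) * inner ℂ e1 (h (F ζ))
        + σ * (1 - (starRingEnd ℂ) y * ζ) * inner ℂ e2 (h (F ζ))) with hK
  have hin : ∀ e : E, ∀ ζ : ℂ, ‖ζ‖ ≤ 1 → DifferentiableAt ℂ (fun ζ => inner ℂ e (h (F ζ))) ζ := by
    intro e ζ hζ
    exact DifferentiableAt.comp ζ (innerSL ℂ e).differentiableAt (hhF ζ hζ)
  have hKd : ∀ ζ : ℂ, ‖ζ‖ ≤ 1 → DifferentiableAt ℂ K ζ := by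
    intro ζ hζ
    have ha := hin e1 ζ hζ
    have hb := hin e2 ζ hζ
    simp only [hK]
    fun_prop
  have hKon : DifferentiableOn ℂ K (closedBall 0 1) := fun ζ hζ =>
    (hKd ζ (by simpa using hζ)).differentiableWithinAt
  have hball : closedBall (0:ℂ) 1 ∈ nhds (0:ℂ) := closedBall_mem_nhds 0 one_pos
  have hds : DifferentiableOn ℂ (dslope K 0) (closedBall 0 1) :=
    (Complex.differentiableOn_dslope hball).2 hKon
  have hK0 : K 0 = 0 := by
    simp [hK, hF, disc, h0]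
  -- derivative at 0
  have hFderiv : HasDerivAt F ((s:ℂ) • ((ρ : ℂ) • e1 + (-(σ : ℂ) * y) • e2)) 0 :=
    (hasDerivAt_disc_zero e1 e2 ρ σ hy).const_smul (s:ℂ)
  have hF0 : F 0 = 0 := by simp [hF, disc]
  have hhFderiv : HasDerivAt (fun ζ => h (F ζ)) ((s:ℂ) • ((ρ : ℂ) • e1 + (-(σ : ℂ) * y) • e2)) 0 := by
    have h1' : HasFDerivAt h (ContinuousLinearMap.id ℂ E) (F 0) := by rw [hF0]; exact h1
    have := h1'.comp_hasDerivAt (0:ℂ) hFderiv
    rw [ContinuousLinearMap.id_apply] at this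
    exact this
  have hinD : ∀ e : E, HasDerivAt (fun ζ => inner ℂ e (h (F ζ)))
      (inner ℂ e ((s:ℂ) • ((ρ : ℂ) • e1 + (-(σ : ℂ) * y) • e2))) 0 := by
    intro e
    have := (innerSL ℂ e).hasFDerivAt.comp_hasDerivAt (0:ℂ) hhFderiv
    rw [innerSL_apply_apply] at this
    exact this
  have he1' : inner ℂ e1 e1 = (1:ℂ) := by
    rw [inner_self_eq_norm_sq_to_K, he1]; simp
  have he2' : inner ℂ e2 e2 = (1:ℂ) := by
    rw [inner_self_eq_norm_sq_to_K, he2]; simp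
  have he' : inner ℂ e2 e1 = (0:ℂ) := by
    rw [← inner_conj_symm, he]; simp
  have hd1 : inner ℂ e1 ((s:ℂ) • ((ρ : ℂ) • e1 + (-(σ : ℂ) * y) • e2)) = (s:ℂ) * ρ := by
    rw [inner_smul_right, inner_add_right, inner_smul_right, inner_smul_right, he1', he]; ring
  have hd2 : inner ℂ e2 ((s:ℂ) • ((ρ : ℂ) • e1 + (-(σ : ℂ) * y) • e2)) = -((s:ℂ) * σ * y) := by
    rw [inner_smul_right, inner_add_right, inner_smul_right, inner_smul_right, he2', he']; ring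
  have hKderiv : HasDerivAt K (-((s:ℂ) * y)) 0 := by
    have a1 := hinD e1
    have a2 := hinD e2
    rw [hd1] at a1
    rw [hd2] at a2
    have b1 : HasDerivAt (fun ζ : ℂ => (ρ:ℂ) * (ζ - y)) (ρ:ℂ) 0 := by
      have := ((hasDerivAt_id (0:ℂ)).sub_const y).const_mul (ρ:ℂ)
      simpa using this
    have b2 : HasDerivAt (fun ζ : ℂ => (1 - (starRingEnd ℂ) y * ζ)) (-(starRingEnd ℂ) y) 0 := by
      have := ((hasDerivAt_id (0:ℂ)).const_mul ((starRingEnd ℂ) y)).const_sub 1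
      simpa using this
    have b3 : HasDerivAt (fun ζ : ℂ => (σ:ℂ) * (1 - (starRingEnd ℂ) y * ζ)) ((σ:ℂ) * (-(starRingEnd ℂ) y)) 0 :=
      b2.const_mul _
    have := b2.mul ((b1.mul a1).add (b3.mul a2))
    have h3 : (ρ:ℂ)^2 + (σ:ℂ)^2 = 1 := by exact_mod_cast hρσ
    refine this.congr_deriv ?_
    simp only [Pi.add_apply, Pi.mul_apply]
    simp only [hF0, h0, inner_zero_right]
    linear_combination (-(s:ℂ) * y) * h3
  have hK1 : ∀ ζ : ℂ, ζ ≠ 0 → dslope K 0 ζ = K ζ / ζ := by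
    intro ζ hζ
    rw [dslope_of_ne _ hζ, slope_def_field, hK0]; simp
  have hK10 : dslope K 0 0 = -((s:ℂ) * y) := by
    rw [dslope_same, hKderiv.deriv]
  have key := disc_lemma hds ?_ hx0 hx1
  · rw [hK10, hK1 (x:ℂ) (by exact_mod_cast hx0.ne'), div_ofReal_re, le_div_iff₀ hx0] at key
    simp only [neg_re, mul_re, ofReal_re, ofReal_im, zero_mul, sub_zero] at key
    have : -(x * (1 - x ^ 2) * s * y.re) ≤ (K (x:ℂ)).re := by nlinarith
    exact this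
  · intro ζ hζ
    have hζ0 : ζ ≠ 0 := by
      intro h; rw [h] at hζ; simp at hζ
    have hcc : (starRingEnd ℂ) ζ * ζ = 1 := by
      rw [← normSq_eq_conj_mul_self, normSq_eq_norm_sq, hζ]; simp
    have hne := one_sub_ne_zero hy hζ.le
    have hne2 : (starRingEnd ℂ) (1 - (starRingEnd ℂ) y * ζ) ≠ 0 := by
      rw [Ne, map_eq_zero]; exact hne
    have hpos := hp (F ζ) (hFball ζ hζ.le)
    have hFin : inner ℂ (F ζ) (h (F ζ)) = s * ((starRingEnd ℂ) ζ * (ρ * inner ℂ e1 (h (F ζ)) +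
      σ * (((starRingEnd ℂ) ζ - (starRingEnd ℂ) y) / (1 - y * (starRingEnd ℂ) ζ)) * inner ℂ e2 (h (F ζ)))) := by
      simp only [hF, disc, inner_smul_left, inner_add_left, conj_ofReal, map_mul, map_div₀, map_sub,
        map_one, conj_conj]
    have hne3 : (1 - y * (starRingEnd ℂ) ζ) ≠ 0 := by
      simpa using hne2
    have hkey : (starRingEnd ℂ) ζ * dslope K 0 ζ =
        ((normSq (ζ - y) / s : ℝ) : ℂ) * inner ℂ (F ζ) (h (F ζ)) := by
      rw [hK1 ζ hζ0, hFin]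
      have hs' : (s:ℂ) ≠ 0 := by exact_mod_cast hs0.ne'
      have hn : ((normSq (ζ - y) / s : ℝ) : ℂ) = (ζ - y) * ((starRingEnd ℂ) ζ - (starRingEnd ℂ) y) / s := by
        push_cast
        rw [← mul_conj]; simp
      rw [hn]
      have hζinv : ζ = ((starRingEnd ℂ) ζ)⁻¹ := eq_inv_of_mul_eq_one_right hcc
      have hc0 : (starRingEnd ℂ) ζ ≠ 0 := by
        intro h; rw [h] at hcc; simp at hcc
      simp only [hK]
      generalize inner ℂ e1 (h (F ζ)) = A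
      generalize inner ℂ e2 (h (F ζ)) = B
      have e1' : 1 - (starRingEnd ℂ) y * ζ = ζ * ((starRingEnd ℂ) ζ - (starRingEnd ℂ) y) := by
        linear_combination -hcc
      have e2' : 1 - y * (starRingEnd ℂ) ζ = (starRingEnd ℂ) ζ * (ζ - y) := by
        linear_combination -hcc
      rw [e2'] at hne3 ⊢
      rw [e1']
      have hne4 : ζ - y ≠ 0 := right_ne_zero_of_mul hne3
      field_simp
      linear_combination (((starRingEnd ℂ) ζ - (starRingEnd ℂ) y) ^ 2 * (σ:ℂ) * B) * hcc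
    rw [hkey, re_ofReal_mul]
    exact mul_nonneg (div_nonneg (normSq_nonneg _) hs0.le) hpos

theorem cert {h : E → E} (hd : DifferentiableOn ℂ h (ball 0 1)) (h0 : h 0 = 0)
    (h1 : HasFDerivAt h (ContinuousLinearMap.id ℂ E) 0)
    (hp : ∀ z ∈ ball (0:E) 1, 0 ≤ (inner ℂ z (h z)).re)
    {e1 e2 : E} (he1 : ‖e1‖ = 1) (he2 : ‖e2‖ = 1) (he : inner ℂ e1 e2 = 0)
    {ρ σ x : ℝ} (hρσ : ρ ^ 2 + σ ^ 2 = 1) {y : ℂ} (hy : ‖y‖ < 1) (hx0 : 0 < x) (hx1 : x < 1) :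
    -(x * (1 - x ^ 2) * y.re) ≤
      ((1 - (starRingEnd ℂ) y * x) * (ρ * (x - y) * inner ℂ e1 (h (disc e1 e2 ρ σ y x))
        + σ * (1 - (starRingEnd ℂ) y * x) * inner ℂ e2 (h (disc e1 e2 ρ σ y x)))).re := by
  have hxn : ‖(x:ℂ)‖ = x := by simp [abs_of_pos hx0]
  have hzb : disc e1 e2 ρ σ y x ∈ ball (0:E) 1 := by
    have := norm_disc_le he1 he2 he hρσ hy (ζ := (x:ℂ)) (by rw [hxn]; exact hx1.le)
    rw [mem_ball_zero_iff]
    rw [hxn] at this
    linarith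
  have hc : ContinuousAt (fun s : ℝ => h ((s : ℂ) • disc e1 e2 ρ σ y x)) 1 := by
    have h2 : ContinuousAt h (((1:ℝ) : ℂ) • disc e1 e2 ρ σ y x) := by
      simp only [ofReal_one, one_smul]
      exact (hd.differentiableAt (isOpen_ball.mem_nhds hzb)).continuousAt
    have h3 : ContinuousAt (fun s : ℝ => (s : ℂ) • disc e1 e2 ρ σ y x) 1 := by fun_prop
    exact ContinuousAt.comp (f := fun s : ℝ => (s : ℂ) • disc e1 e2 ρ σ y x) h2 h3
  have hR : ContinuousAt (fun s : ℝ => ((1 - (starRingEnd ℂ) y * x) * (ρ * (x - y) * inner ℂ e1 (h ((s : ℂ) • disc e1 e2 ρ σ y x))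
        + σ * (1 - (starRingEnd ℂ) y * x) * inner ℂ e2 (h ((s : ℂ) • disc e1 e2 ρ σ y x)))).re) 1 := by
    have i1 : ContinuousAt (fun s : ℝ => inner ℂ e1 (h ((s : ℂ) • disc e1 e2 ρ σ y x))) 1 :=
      continuousAt_const.inner hc
    have i2 : ContinuousAt (fun s : ℝ => inner ℂ e2 (h ((s : ℂ) • disc e1 e2 ρ σ y x))) 1 :=
      continuousAt_const.inner hc
    fun_prop
  have hL : ContinuousAt (fun s : ℝ => -(x * (1 - x ^ 2) * s * y.re)) 1 := by fun_prop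
  have t1 := hL.tendsto.mono_left (nhdsWithin_le_nhds (s := Iio (1:ℝ)))
  have t2 := hR.tendsto.mono_left (nhdsWithin_le_nhds (s := Iio (1:ℝ)))
  have := le_of_tendsto_of_tendsto t1 t2 (by
    have : Ioo (0:ℝ) 1 ∈ nhdsWithin (1:ℝ) (Iio 1) := Ioo_mem_nhdsLT (by norm_num)
    filter_upwards [this] with s hs
    exact cert_s hd h0 h1 hp he1 he2 he hρσ hy hx0 hx1 hs.1 hs.2)
  simpa using this

theorem exists_unimodular (a : ℂ) : ∃ ω : ℂ, ‖ω‖ = 1 ∧ ω * a = ‖a‖ := by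
  by_cases ha : a = 0
  · exact ⟨1, by simp, by simp [ha]⟩
  · refine ⟨(starRingEnd ℂ) a / ‖a‖, ?_, ?_⟩
    · rw [norm_div, RCLike.norm_conj]; simp [ha]
    · have : (‖a‖ : ℂ) ≠ 0 := by simpa using ha
      field_simp
      rw [mul_comm, mul_conj, normSq_eq_norm_sq]; push_cast; ring

theorem frame {e u : E} (he : ‖e‖ = 1) (hu : ‖u‖ = 1) (heu : inner ℂ e u = 0) {k ρ σ : ℝ} {φ : ℂ}
    (hk : k ^ 2 * (ρ ^ 2 + σ ^ 2 * normSq φ) = 1) :
    ∃ e1 e2 : E, ‖e1‖ = 1 ∧ ‖e2‖ = 1 ∧ inner ℂ e1 e2 = 0 ∧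
      ((ρ:ℂ) • e1 + ((σ:ℂ) * φ) • e2 = ((k * (ρ ^ 2 + σ ^ 2 * normSq φ) : ℝ) : ℂ) • e) ∧
      (∀ v, inner ℂ e1 v = (k:ℂ) * (ρ * inner ℂ e v - σ * (starRingEnd ℂ) φ * inner ℂ u v)) ∧
      (∀ v, inner ℂ e2 v = (k:ℂ) * (σ * φ * inner ℂ e v + ρ * inner ℂ u v)) := by
  have hue : inner ℂ u e = 0 := by rw [← inner_conj_symm, heu]; simp
  have hee : inner ℂ e e = (1:ℂ) := by rw [inner_self_eq_norm_sq_to_K, he]; simp
  have huu : inner ℂ u u = (1:ℂ) := by rw [inner_self_eq_norm_sq_to_K, hu]; simp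
  have hi1 : ∀ v, inner ℂ ((k:ℂ) • ((ρ:ℂ) • e + (-((σ:ℂ) * φ)) • u)) v = (k:ℂ) * (ρ * inner ℂ e v - σ * (starRingEnd ℂ) φ * inner ℂ u v) := by
    intro v
    rw [inner_smul_left, inner_add_left, inner_smul_left, inner_smul_left, conj_ofReal]
    simp only [map_neg, map_mul, conj_ofReal]
    ring
  have hi2 : ∀ v, inner ℂ ((k:ℂ) • (((σ:ℂ) * (starRingEnd ℂ) φ) • e + (ρ:ℂ) • u)) v = (k:ℂ) * (σ * φ * inner ℂ e v + ρ * inner ℂ u v) := by
    intro v
    rw [inner_smul_left, inner_add_left, inner_smul_left, inner_smul_left, conj_ofReal]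
    simp only [map_mul, conj_ofReal, conj_conj]
  refine ⟨(k:ℂ) • ((ρ:ℂ) • e + (-((σ:ℂ) * φ)) • u), (k:ℂ) • (((σ:ℂ) * (starRingEnd ℂ) φ) • e + (ρ:ℂ) • u),
    ?_, ?_, ?_, ?_, hi1, hi2⟩
  · have h2 := norm_comb_sq he hu heu (ρ:ℂ) (-((σ:ℂ) * φ))
    refine (pow_eq_one_iff_of_nonneg (norm_nonneg _) two_ne_zero).mp ?_
    rw [norm_smul, mul_pow, h2, norm_neg, norm_mul, mul_pow, norm_real, norm_real, norm_real,
        ← normSq_eq_norm_sq]
    simp only [Real.norm_eq_abs, sq_abs]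
    exact hk
  · have h2 := norm_comb_sq he hu heu ((σ:ℂ) * (starRingEnd ℂ) φ) (ρ:ℂ)
    refine (pow_eq_one_iff_of_nonneg (norm_nonneg _) two_ne_zero).mp ?_
    rw [norm_smul, mul_pow, h2, norm_mul, mul_pow, norm_real, norm_real, norm_real, RCLike.norm_conj,
        ← normSq_eq_norm_sq]
    simp only [Real.norm_eq_abs, sq_abs]
    linarith [hk]
  · rw [hi1, inner_smul_right, inner_smul_right, inner_add_right, inner_add_right, inner_smul_right,
      inner_smul_right, inner_smul_right, inner_smul_right, hee, heu, hue, huu]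
    ring
  · have : (((k * (ρ ^ 2 + σ ^ 2 * normSq φ) : ℝ)) : ℂ) = (k:ℂ) * ((ρ:ℂ) ^ 2 + (σ:ℂ) ^ 2 * (φ * (starRingEnd ℂ) φ)) := by
      rw [mul_conj]; push_cast; ring
    rw [this]
    module

/-- Choice of the disc parameter `y`. -/
theorem exists_y {x ε : ℝ} (hx0 : 0 < x) (hx1 : x < 1) (hε0 : 0 ≤ ε) (hεx : ε < x) {ω : ℂ} (hω : ‖ω‖ = 1) :
    ∃ y c : ℂ, ‖y‖ < 1 ∧ c ≠ 0 ∧ 1 - (starRingEnd ℂ) y * x = (starRingEnd ℂ) c ∧
      (x:ℂ) - y = -((ε * ω) / x) * c ∧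
      x * (1 - x ^ 2) * y.re ≤ normSq c * ((x ^ 2 + ε) * (1 + ε) / (1 - x ^ 2)) := by
  set η : ℂ := ε * ω with hη
  have hηn : ‖η‖ = ε := by rw [hη, norm_mul, hω]; simp [abs_of_nonneg hε0]
  have hηsq : normSq η = ε ^ 2 := by rw [normSq_eq_norm_sq, hηn]
  have hη1 : 1 + η ≠ 0 := by
    intro hh
    have : η = -1 := by linear_combination hh
    rw [this] at hηn; simp at hηn; linarith
  have hxc : (x:ℂ) ≠ 0 := by exact_mod_cast hx0.ne'
  set y : ℂ := (η + x ^ 2) / (x * (1 + η)) with hy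
  have hηre : -ε ≤ η.re ∧ η.re ≤ ε := by
    have := abs_re_le_norm η
    rw [hηn] at this
    exact abs_le.mp this
  have hn1 : normSq (1 + η) = 1 + 2 * η.re + ε ^ 2 := by
    rw [normSq_add, hηsq]; simp; ring
  have hn2 : normSq (η + x ^ 2) = ε ^ 2 + 2 * η.re * x ^ 2 + x ^ 4 := by
    rw [normSq_add, hηsq]
    have : normSq ((x:ℂ) ^ 2) = x ^ 4 := by
      rw [map_pow, normSq_ofReal]; ring
    rw [this]
    have : (η * (starRingEnd ℂ) ((x:ℂ) ^ 2)).re = η.re * x ^ 2 := by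
      rw [map_pow, conj_ofReal, ← ofReal_pow, re_mul_ofReal]
    rw [this]; ring
  have hpos1 : 0 < 1 + 2 * η.re + ε ^ 2 := by
    rw [← hn1]; exact normSq_pos.mpr hη1
  have hynorm : ‖y‖ < 1 := by
    have : normSq y < 1 := by
      rw [hy, normSq_div, map_mul, normSq_ofReal, hn1, hn2, div_lt_one (by positivity)]
      nlinarith [mul_pos (show 0 < x - ε by linarith) (show 0 < 1 - x by linarith),
        mul_pos (mul_pos (show 0 < x - ε by linarith) (show 0 < x + ε by linarith)) (mul_pos (show 0 < 1 - x by linarith) (show 0 < 1 + x by linarith))]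
    rw [normSq_eq_norm_sq] at this
    nlinarith [norm_nonneg y]
  have hx21r : (0:ℝ) < 1 - x ^ 2 := by nlinarith
  have hx21 : (1 - (x:ℂ) ^ 2) ≠ 0 := by
    have : (1 - x ^ 2 : ℝ) ≠ 0 := hx21r.ne'
    exact_mod_cast this
  have hc' : 1 - (x:ℂ) * y = (1 - x ^ 2) / (1 + η) := by
    rw [hy]; field_simp; ring
  refine ⟨y, 1 - (x:ℂ) * y, hynorm, ?_, ?_, ?_, ?_⟩
  · rw [hc']; exact div_ne_zero hx21 hη1
  · simp; ring
  · rw [hc', hy]; field_simp; ring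
  · have hnc : normSq (1 - (x:ℂ) * y) = (1 - x ^ 2) ^ 2 / (1 + 2 * η.re + ε ^ 2) := by
      rw [hc', normSq_div, hn1]
      congr 1
      have : (1 - (x:ℂ) ^ 2) = ((1 - x ^ 2 : ℝ) : ℂ) := by push_cast; ring
      rw [this, normSq_ofReal]; ring
    have hyre : y.re = (η.re + ε ^ 2 + x ^ 2 + x ^ 2 * η.re) / (x * (1 + 2 * η.re + ε ^ 2)) := by
      have : y = ((η + x ^ 2) * (starRingEnd ℂ) (1 + η)) / ((x * normSq (1 + η) : ℝ) : ℂ) := by
        rw [hy]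
        push_cast
        rw [← mul_conj]
        have : (starRingEnd ℂ) (1 + η) ≠ 0 := (map_ne_zero _).mpr hη1
        field_simp
      rw [this, div_ofReal_re, hn1]
      congr 1
      have h3 : η.re * η.re + η.im * η.im = ε ^ 2 := by rw [← normSq_apply, hηsq]
      simp only [mul_re, add_re, add_im, one_re, one_im, map_add, map_one, conj_re, conj_im, ← ofReal_pow, ofReal_re, ofReal_im]
      linear_combination h3
    rw [hnc, hyre]
    have e1 : x * (1 - x ^ 2) * ((η.re + ε ^ 2 + x ^ 2 + x ^ 2 * η.re) / (x * (1 + 2 * η.re + ε ^ 2)))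
      = (1 - x ^ 2) / (1 + 2 * η.re + ε ^ 2) * (η.re + ε ^ 2 + x ^ 2 + x ^ 2 * η.re) := by
      field_simp
    have e2 : (1 - x ^ 2) ^ 2 / (1 + 2 * η.re + ε ^ 2) * ((x ^ 2 + ε) * (1 + ε) / (1 - x ^ 2))
      = (1 - x ^ 2) / (1 + 2 * η.re + ε ^ 2) * ((x ^ 2 + ε) * (1 + ε)) := by
      field_simp
    rw [e1, e2]
    apply mul_le_mul_of_nonneg_left _ (by positivity)
    nlinarith [hηre.2, sq_nonneg x]

theorem lemmaJ {h : E → E} (hd : DifferentiableOn ℂ h (ball 0 1)) (h0 : h 0 = 0)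
    (h1 : HasFDerivAt h (ContinuousLinearMap.id ℂ E) 0)
    (hp : ∀ z ∈ ball (0:E) 1, 0 ≤ (inner ℂ z (h z)).re)
    {z u : E} {r : ℝ} (hr : 0 < r) (hz : ‖z‖ = r) (hu : ‖u‖ = 1) (hzu : inner ℂ z u = 0)
    {ρ σ x ε : ℝ} (hρσ : ρ ^ 2 + σ ^ 2 = 1) (hx0 : 0 < x) (hx1 : x < 1)
    (hε0 : 0 ≤ ε) (hεx : ε < x) (hr2 : r ^ 2 = x ^ 2 * ρ ^ 2 + σ ^ 2 * ε ^ 2) :
    ε * (‖inner ℂ z (h z)‖ / r ^ 2) + ρ * σ * (x ^ 2 - ε ^ 2) / (x * r) * ‖inner ℂ u (h z)‖
      ≤ (x ^ 2 + ε) * (1 + ε) / (1 - x ^ 2) := by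
  obtain ⟨ω, hω, hωp⟩ := exists_unimodular (inner ℂ z (h z))
  obtain ⟨y, c, hynorm, hc0, hcbar, hxy, hyre⟩ := exists_y hx0 hx1 hε0 hεx hω
  have hxc : (x:ℂ) ≠ 0 := by exact_mod_cast hx0.ne'
  have hrc : (r:ℂ) ≠ 0 := by exact_mod_cast hr.ne'
  have hcc0 : (starRingEnd ℂ) c ≠ 0 := by simpa using hc0
  have hncr : 0 < normSq c := normSq_pos.mpr hc0
  have hncc : (normSq c : ℂ) = c * (starRingEnd ℂ) c := (mul_conj c).symm
  obtain ⟨ω', hω', hω'p⟩ := exists_unimodular ((starRingEnd ℂ) c ^ 2 / (normSq c : ℂ) * inner ℂ u (h z))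
  have hτn : ‖(starRingEnd ℂ) c ^ 2 / (normSq c : ℂ) * inner ℂ u (h z)‖ = ‖inner ℂ u (h z)‖ := by
    rw [norm_mul, norm_div, norm_pow, RCLike.norm_conj, norm_real, normSq_eq_norm_sq]
    have : ‖c‖ ≠ 0 := by simpa using hc0
    simp only [norm_pow, norm_norm]
    field_simp
  rw [hτn] at hω'p
  have hu'n : ‖(starRingEnd ℂ) (-ω') • u‖ = 1 := by
    rw [norm_smul, hu, RCLike.norm_conj, norm_neg, hω']; simp
  have hen : ‖(r⁻¹ : ℂ) • z‖ = 1 := by
    rw [norm_smul, hz, norm_inv, norm_real, Real.norm_eq_abs, abs_of_pos hr]; field_simp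
  have heu : inner ℂ ((r⁻¹ : ℂ) • z) ((starRingEnd ℂ) (-ω') • u) = 0 := by
    rw [inner_smul_left, inner_smul_right, hzu, mul_zero, mul_zero]
  set φ : ℂ := ((x:ℂ) - y) / (1 - (starRingEnd ℂ) y * x) with hφ
  have hφ' : φ = -((ε * ω) / x) * c / (starRingEnd ℂ) c := by rw [hφ, hxy, hcbar]
  have hφsq : normSq φ = ε ^ 2 / x ^ 2 := by
    have hωsq : normSq ω = 1 := by rw [normSq_eq_norm_sq, hω]; norm_num
    rw [hφ', normSq_div, map_mul, normSq_neg, normSq_div, map_mul, normSq_conj, normSq_ofReal, normSq_ofReal, hωsq]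
    field_simp
  have hk : (x / r) ^ 2 * (ρ ^ 2 + σ ^ 2 * normSq φ) = 1 := by
    rw [hφsq]
    have : (x / r) ^ 2 * (ρ ^ 2 + σ ^ 2 * (ε ^ 2 / x ^ 2)) = (x ^ 2 * ρ ^ 2 + σ ^ 2 * ε ^ 2) / r ^ 2 := by
      field_simp
    rw [this, ← hr2]; field_simp
  obtain ⟨e1, e2, he1n, he2n, he12, hcomb, hi1, hi2⟩ := frame hen hu'n heu hk
  have hdisc : disc e1 e2 ρ σ y x = z := by
    unfold disc
    rw [← hφ, hcomb, smul_smul, smul_smul]
    have : (x:ℂ) * ((x / r * (ρ ^ 2 + σ ^ 2 * normSq φ) : ℝ) : ℂ) * (r⁻¹ : ℂ) = 1 := by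
      have h2 : x * (x / r * (ρ ^ 2 + σ ^ 2 * normSq φ)) * r⁻¹ = 1 := by
        rw [← hk]; field_simp
      exact_mod_cast h2
    rw [← mul_assoc] at *
    rw [this, one_smul]
  have key := cert hd h0 h1 hp he1n he2n he12 hρσ hynorm hx0 hx1
  rw [hdisc] at key
  have hi1' := hi1 (h z)
  have hi2' := hi2 (h z)
  rw [inner_smul_left, inner_smul_left] at hi1' hi2'
  rw [conj_conj, map_inv₀, conj_ofReal] at hi1' hi2'
  rw [hi1', hi2'] at key
  have hxy2 : (x:ℂ) - y = φ * (starRingEnd ℂ) c := by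
    rw [hφ, hcbar]; field_simp
  have hφφ : φ * (starRingEnd ℂ) φ = (ε ^ 2 / x ^ 2 : ℝ) := by rw [mul_conj, hφsq]
  have hcφ : (starRingEnd ℂ) c * φ = -((ε * ω) / x) * c := by rw [← hxy, hxy2]; ring
  rw [hcbar, hxy2] at key
  generalize inner ℂ z (h z) = A at *
  generalize inner ℂ u (h z) = B at *
  have hωB : (starRingEnd ℂ) c ^ 2 * (ω' * B) = (normSq c : ℂ) * ‖B‖ := by
    rw [← hω'p]
    have : (normSq c : ℂ) ≠ 0 := by exact_mod_cast hncr.ne'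
    field_simp
  have hcalc : (starRingEnd ℂ) c * (ρ * (φ * (starRingEnd ℂ) c) * (((x / r : ℝ) : ℂ) * (ρ * ((r:ℂ)⁻¹ * A) - σ * (starRingEnd ℂ) φ * (-ω' * B))) +
      σ * (starRingEnd ℂ) c * (((x / r : ℝ) : ℂ) * (σ * φ * ((r:ℂ)⁻¹ * A) + ρ * (-ω' * B)))) =
      ((-(normSq c * (ε * (‖A‖ / r ^ 2) + ρ * σ * (x ^ 2 - ε ^ 2) / (x * r) * ‖B‖)) : ℝ) : ℂ) := by
    have hs : (ρ:ℂ) ^ 2 + (σ:ℂ) ^ 2 = 1 := by exact_mod_cast hρσ
    have step : (starRingEnd ℂ) c * (ρ * (φ * (starRingEnd ℂ) c) * (((x / r : ℝ) : ℂ) * (ρ * ((r:ℂ)⁻¹ * A) - σ * (starRingEnd ℂ) φ * (-ω' * B))) +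
      σ * (starRingEnd ℂ) c * (((x / r : ℝ) : ℂ) * (σ * φ * ((r:ℂ)⁻¹ * A) + ρ * (-ω' * B)))) =
      ((x / r : ℝ) : ℂ) * (((ρ:ℂ) ^ 2 + (σ:ℂ) ^ 2) * ((starRingEnd ℂ) c * ((starRingEnd ℂ) c * φ)) * ((r:ℂ)⁻¹ * A) +
        ρ * σ * (φ * (starRingEnd ℂ) φ - 1) * ((starRingEnd ℂ) c ^ 2 * (ω' * B))) := by ring
    rw [step, hs, hcφ, hφφ, hωB, hncc]
    have hA : (starRingEnd ℂ) c * (-((ε * ω) / x) * c) * ((r:ℂ)⁻¹ * A) = -(c * (starRingEnd ℂ) c) * (ε / (x * r)) * ‖A‖ := by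
      rw [← hωp]; field_simp
    rw [one_mul, hA]
    push_cast
    rw [hncc]
    field_simp
    ring
  rw [hcalc, ofReal_re] at key
  have : normSq c * (ε * (‖A‖ / r ^ 2) + ρ * σ * (x ^ 2 - ε ^ 2) / (x * r) * ‖B‖) ≤ normSq c * ((x ^ 2 + ε) * (1 + ε) / (1 - x ^ 2)) := by
    linarith
  exact le_of_mul_le_mul_left this hncr

theorem decomp {z v : E} {r : ℝ} (hr : 0 < r) (hz : ‖z‖ = r)
    (hex : ∃ u : E, ‖u‖ = 1 ∧ inner ℂ z u = 0) :
    ∃ u : E, ‖u‖ = 1 ∧ inner ℂ z u = 0 ∧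
      ‖v‖ ^ 2 = (‖inner ℂ z v‖ / r) ^ 2 + ‖inner ℂ u v‖ ^ 2 := by
  have hrc : (r:ℂ) ≠ 0 := by exact_mod_cast hr.ne'
  set c : ℂ := inner ℂ z v / (r:ℂ) ^ 2 with hc
  have hzz : inner ℂ z z = (r:ℂ) ^ 2 := by rw [inner_self_eq_norm_sq_to_K, hz]; simp
  have hzt : inner ℂ z (v - c • z) = 0 := by
    rw [inner_sub_right, inner_smul_right, hzz, hc]; field_simp; ring
  have htz : inner ℂ (v - c • z) z = 0 := by rw [← inner_conj_symm, hzt]; simp
  have hv : v = c • z + (v - c • z) := by abel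
  have hnorm : ‖v‖ ^ 2 = ‖c • z‖ ^ 2 + ‖v - c • z‖ ^ 2 := by
    have := norm_add_sq_eq_norm_sq_add_norm_sq_of_inner_eq_zero (𝕜 := ℂ) (c • z) (v - c • z) (by
      rw [inner_smul_left, hzt, mul_zero])
    rw [← hv] at this
    nlinarith [this]
  have hcz : ‖c • z‖ = ‖inner ℂ z v‖ / r := by
    rw [norm_smul, hz, hc, norm_div, norm_pow, norm_real, Real.norm_eq_abs, abs_of_pos hr]
    field_simp
  by_cases ht : v - c • z = 0
  · obtain ⟨u, hu, hzu⟩ := hex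
    refine ⟨u, hu, hzu, ?_⟩
    have huz : inner ℂ u z = 0 := by rw [← inner_conj_symm, hzu]; simp
    have : inner ℂ u v = 0 := by
      rw [hv, ht, add_zero, inner_smul_right, huz, mul_zero]
    rw [hnorm, hcz, ht, this, norm_zero, norm_zero]
  · have htn : ‖v - c • z‖ ≠ 0 := by simpa using ht
    have htnc : (‖v - c • z‖ : ℂ) ≠ 0 := by exact_mod_cast htn
    refine ⟨((‖v - c • z‖⁻¹ : ℝ) : ℂ) • (v - c • z), ?_, ?_, ?_⟩
    · rw [norm_smul, norm_real, norm_inv, norm_norm]; field_simp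
    · rw [inner_smul_right, hzt, mul_zero]
    · rw [hnorm, hcz]
      congr 2
      rw [inner_smul_left, conj_ofReal]
      have : inner ℂ (v - c • z) v = (‖v - c • z‖ : ℂ) ^ 2 := by
        conv_lhs => rw [hv, inner_add_right, inner_smul_right]
        simp only [← hv]
        rw [htz, mul_zero, zero_add, inner_self_eq_norm_sq_to_K]; simp
      rw [this]
      push_cast
      rw [inv_mul_eq_div, pow_two, mul_div_assoc, div_self htnc, mul_one, norm_real, norm_norm]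

theorem lemmaJ' {h : E → E} (hd : DifferentiableOn ℂ h (ball 0 1)) (h0 : h 0 = 0)
    (h1 : HasFDerivAt h (ContinuousLinearMap.id ℂ E) 0)
    (hp : ∀ z ∈ ball (0:E) 1, 0 ≤ (inner ℂ z (h z)).re)
    {z u : E} {r : ℝ} (hr : 0 < r) (hz : ‖z‖ = r) (hu : ‖u‖ = 1) (hzu : inner ℂ z u = 0)
    {U ε : ℝ} (hU1 : U < 1) (hRU : r ^ 2 ≤ U) (hε0 : 0 ≤ ε) (hεr : ε < r) :
    ε * (‖inner ℂ z (h z)‖ / r ^ 2) +
      Real.sqrt ((U - r ^ 2) * (r ^ 2 - ε ^ 2) / (U * r ^ 2)) * ‖inner ℂ u (h z)‖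
      ≤ (U + ε) * (1 + ε) / (1 - U) := by
  have hr2 : 0 < r ^ 2 := by positivity
  have hU0 : 0 < U := lt_of_lt_of_le hr2 hRU
  have hεr2 : ε ^ 2 < r ^ 2 := by
    apply pow_lt_pow_left₀ hεr hε0 two_ne_zero
  have hUε : 0 < U - ε ^ 2 := by linarith
  have hx0 : 0 < Real.sqrt U := Real.sqrt_pos.mpr hU0
  have hxsq : Real.sqrt U ^ 2 = U := Real.sq_sqrt hU0.le
  have hx1 : Real.sqrt U < 1 := by
    rw [Real.sqrt_lt' one_pos]; simpa using hU1
  have hεx : ε < Real.sqrt U := by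
    rw [Real.lt_sqrt hε0]; linarith
  have hA : 0 ≤ (r ^ 2 - ε ^ 2) / (U - ε ^ 2) := div_nonneg (by linarith) hUε.le
  have hB : 0 ≤ (U - r ^ 2) / (U - ε ^ 2) := div_nonneg (by linarith) hUε.le
  have hρ := Real.sq_sqrt hA
  have hσ := Real.sq_sqrt hB
  have key := lemmaJ hd h0 h1 hp hr hz hu hzu
    (ρ := Real.sqrt ((r ^ 2 - ε ^ 2) / (U - ε ^ 2))) (σ := Real.sqrt ((U - r ^ 2) / (U - ε ^ 2)))
    (x := Real.sqrt U) (ε := ε) (by
      rw [hρ, hσ]; field_simp; ring) hx0 hx1 hε0 hεx (by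
      rw [hρ, hσ, hxsq]; field_simp; ring)
  rw [hxsq] at key
  have hcoef : Real.sqrt ((r ^ 2 - ε ^ 2) / (U - ε ^ 2)) * Real.sqrt ((U - r ^ 2) / (U - ε ^ 2)) *
      (U - ε ^ 2) / (Real.sqrt U * r) = Real.sqrt ((U - r ^ 2) * (r ^ 2 - ε ^ 2) / (U * r ^ 2)) := by
    have hpos : 0 ≤ Real.sqrt ((r ^ 2 - ε ^ 2) / (U - ε ^ 2)) * Real.sqrt ((U - r ^ 2) / (U - ε ^ 2)) *
      (U - ε ^ 2) / (Real.sqrt U * r) := by positivity
    symm
    rw [Real.sqrt_eq_iff_mul_self_eq (div_nonneg (mul_nonneg (by linarith) (by linarith)) (by positivity)) hpos]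
    have e1 : Real.sqrt ((r ^ 2 - ε ^ 2) / (U - ε ^ 2)) * Real.sqrt ((U - r ^ 2) / (U - ε ^ 2)) *
      (U - ε ^ 2) / (Real.sqrt U * r) * (Real.sqrt ((r ^ 2 - ε ^ 2) / (U - ε ^ 2)) * Real.sqrt ((U - r ^ 2) / (U - ε ^ 2)) *
      (U - ε ^ 2) / (Real.sqrt U * r)) = (Real.sqrt ((r ^ 2 - ε ^ 2) / (U - ε ^ 2)) ^ 2) * (Real.sqrt ((U - r ^ 2) / (U - ε ^ 2)) ^ 2) *
      (U - ε ^ 2) ^ 2 / (Real.sqrt U ^ 2 * r ^ 2) := by
      field_simp
    rw [e1, hρ, hσ, hxsq]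
    field_simp
  rw [hcoef] at key
  exact key

theorem poly_ineq {w e R A ε : ℝ} (hw0 : 0 < w) (hw1 : w < 1) (he0 : 0 < e) (hew : e < w) (hε : 0 ≤ ε)
    (hC : (2 - w) * (1 - w) * e ^ 2 - (1 + 2 * w - 2 * w ^ 2 + w ^ 3) * e + w * (1 - w ^ 2) = 0)
    (hR : R * (1 + w) = (w - (1 - w) * e) * (1 + w) - e * (w - e))
    (hA : A * e = w * (1 + w) * (w - (1 - w) * e) * (1 + e)) :
    w ^ 2 * (1 + ε) ^ 2 * (w - (1 - w) * ε) ≤ A * (w - R - (1 - w) * ε + ε ^ 2) := by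
  have hid : A * (w - R - (1 - w) * ε + ε ^ 2) - w ^ 2 * (1 + ε) ^ 2 * (w - (1 - w) * ε) =
      (ε - e) ^ 2 * ((1 - w) * w ^ 2 * ε + (A - w ^ 2 * (3 * w - 2) + 2 * (1 - w) * w ^ 2 * e)) := by
    have hne : e * (1 + w) ≠ 0 := by positivity
    apply mul_left_cancel₀ hne
    linear_combination ((1 + w) * (w - R - (1 - w) * ε + 2 * e * ε - e ^ 2)) * hA
      - (w * (1 + w) * (w - (1 - w) * e) * (1 + e)) * hR
      + ((1 + w) * w * (1 + e) * (e - ε)) * hC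
  have hX : w ^ 2 < w - (1 - w) * e := by nlinarith
  have hAlow : w ^ 2 * (1 + w) ≤ A := by
    have h1 : w * (1 + w) * w ^ 2 * 1 ≤ A * e := by
      rw [hA]
      apply mul_le_mul _ (by linarith) (by norm_num) _
      · apply mul_le_mul_of_nonneg_left hX.le (by positivity)
      · have : 0 < w - (1 - w) * e := lt_trans (by positivity) hX
        positivity
    have hApos : 0 < A := by
      by_contra hcon
      have : A * e ≤ 0 := mul_nonpos_of_nonpos_of_nonneg (not_lt.mp hcon) he0.le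
      have : 0 < w * (1 + w) * w ^ 2 * 1 := by positivity
      linarith
    have h2 : A * e ≤ A * w := mul_le_mul_of_nonneg_left hew.le hApos.le
    have h3 : w * (w ^ 2 * (1 + w)) ≤ w * A := by nlinarith
    exact le_of_mul_le_mul_left h3 hw0
  have hc0 : 0 ≤ A - w ^ 2 * (3 * w - 2) + 2 * (1 - w) * w ^ 2 * e := by
    have h1 : 0 ≤ 2 * (1 - w) * w ^ 2 * e := by
      have : 0 < 1 - w := by linarith
      positivity
    have h2 : w ^ 2 * (3 * w - 2) ≤ w ^ 2 * (1 + w) := by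
      apply mul_le_mul_of_nonneg_left _ (sq_nonneg _); linarith
    linarith
  have : 0 ≤ (ε - e) ^ 2 * ((1 - w) * w ^ 2 * ε + (A - w ^ 2 * (3 * w - 2) + 2 * (1 - w) * w ^ 2 * e)) := by
    apply mul_nonneg (sq_nonneg _)
    have : 0 ≤ (1 - w) * w ^ 2 * ε := by
      have : 0 < 1 - w := by linarith
      positivity
    linarith
  linarith

/-- The upper bound. -/
theorem upper {h : E → E} (hd : DifferentiableOn ℂ h (ball 0 1)) (h0 : h 0 = 0)
    (h1 : HasFDerivAt h (ContinuousLinearMap.id ℂ E) 0)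
    (hp : ∀ z ∈ ball (0:E) 1, 0 ≤ (inner ℂ z (h z)).re)
    {z : E} {r : ℝ} (hr : 0 < r) (hz : ‖z‖ = r) (hex : ∃ u : E, ‖u‖ = 1 ∧ inner ℂ z u = 0)
    {w e : ℝ} (hw0 : 0 < w) (hw1 : w < 1) (he0 : 0 < e) (hew : e < w) (heK : e < (1 - w) * (1 + w))
    (hC : (2 - w) * (1 - w) * e ^ 2 - (1 + 2 * w - 2 * w ^ 2 + w ^ 3) * e + w * (1 - w ^ 2) = 0)
    (hr2 : r ^ 2 = w - (1 - w) * e - e * (w - e) / (1 + w)) :
    ‖h z‖ ^ 2 ≤ w * (1 + w) * (w - (1 - w) * e) * (1 + e) / ((1 - w) ^ 2 * e) := by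
  have hw1' : 0 < 1 - w := by linarith
  have hw2' : 0 < 1 + w := by linarith
  have hr2pos : 0 < r ^ 2 := by positivity
  -- basic inequalities
  have hRw : w ^ 2 < r ^ 2 := by
    rw [hr2]
    have : w - (1 - w) * e - e * (w - e) / (1 + w) - w ^ 2 = (w - e) * ((1 - w) * (1 + w) - e) / (1 + w) := by
      field_simp; ring
    have h3 : 0 < (w - e) * ((1 - w) * (1 + w) - e) / (1 + w) := by
      apply div_pos (mul_pos (by linarith) (by linarith)) hw2'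
    linarith
  have hwr : w < r := lt_of_pow_lt_pow_left₀ 2 hr.le hRw
  have hRltw : r ^ 2 < w := by
    rw [hr2]
    have : 0 < (1 - w) * e + e * (w - e) / (1 + w) := by
      have : 0 < w - e := by linarith
      positivity
    linarith
  obtain ⟨u, hu, hzu, hT⟩ := decomp (v := h z) hr hz hex
  set N := ‖inner ℂ z (h z)‖ / r with hN
  have hN0 : 0 ≤ N := by positivity
  set T := ‖inner ℂ u (h z)‖ with hTdef
  have hT0 : 0 ≤ T := norm_nonneg _
  set b : ℝ → ℝ := fun ε => Real.sqrt (((w - (1 - w) * ε) - r ^ 2) * (r ^ 2 - ε ^ 2) / ((w - (1 - w) * ε) * r ^ 2)) with hb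
  set εm := (w - r ^ 2) / (1 - w) with hεm
  have hεm0 : 0 < εm := div_pos (by linarith) hw1'
  have hεmr : εm < r := by
    rw [hεm, div_lt_iff₀ hw1']; nlinarith
  have hU : ∀ ε ∈ Icc 0 εm, r ^ 2 ≤ w - (1 - w) * ε := by
    intro ε hε
    have : (1 - w) * ε ≤ (1 - w) * εm := mul_le_mul_of_nonneg_left hε.2 hw1'.le
    have h2 : (1 - w) * εm = w - r ^ 2 := by rw [hεm]; field_simp
    linarith
  have key : ∀ ε ∈ Icc 0 εm, ε / r * N + b ε * T ≤ w / (1 - w) * (1 + ε) := by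
    intro ε hε
    have h2 := lemmaJ' hd h0 h1 hp hr hz hu hzu (U := w - (1 - w) * ε) (ε := ε)
      (by nlinarith [hε.1]) (hU ε hε) hε.1 (lt_of_le_of_lt hε.2 hεmr)
    have e1 : ε * (‖inner ℂ z (h z)‖ / r ^ 2) = ε / r * N := by rw [hN]; field_simp
    have e2 : (w - (1 - w) * ε + ε) * (1 + ε) / (1 - (w - (1 - w) * ε)) = w / (1 - w) * (1 + ε) := by
      have : 1 + ε ≠ 0 := by linarith [hε.1]
      have h5 : 1 - (w - (1 - w) * ε) = (1 - w) * (1 + ε) := by ring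
      rw [h5]
      field_simp
      ring
    rw [e1, e2] at h2
    exact h2
  -- intermediate value theorem
  have hcont : ContinuousOn (fun ε => ε / r * T - b ε * N) (Icc 0 εm) := by
    have hbc : ContinuousOn b (Icc 0 εm) := by
      apply ContinuousOn.sqrt
      apply ContinuousOn.div (by fun_prop) (by fun_prop)
      intro ε hε
      have := hU ε hε
      have : 0 < (w - (1 - w) * ε) * r ^ 2 := mul_pos (by linarith) hr2pos
      exact this.ne'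
    exact ContinuousOn.sub (by fun_prop) (hbc.mul continuousOn_const)
  have hivt : (0:ℝ) ∈ (fun ε => ε / r * T - b ε * N) '' (Icc 0 εm) := by
    apply intermediate_value_Icc hεm0.le hcont
    constructor
    · simp only [zero_div, zero_mul, zero_sub, Left.neg_nonpos_iff]
      exact mul_nonneg (Real.sqrt_nonneg _) hN0
    · have hbm : b εm = 0 := by
        simp only [hb]
        have : w - (1 - w) * εm - r ^ 2 = 0 := by rw [hεm]; field_simp; ring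
        rw [this]; simp
      rw [hbm]
      simp only [zero_mul, sub_zero]
      positivity
  obtain ⟨ε, hε, hε2⟩ := hivt
  simp only at hε2
  have hkey := key ε hε
  have hUpos : 0 < w - (1 - w) * ε := lt_of_lt_of_le hr2pos (hU ε hε)
  have hb2 : b ε ^ 2 = ((w - (1 - w) * ε) - r ^ 2) * (r ^ 2 - ε ^ 2) / ((w - (1 - w) * ε) * r ^ 2) := by
    apply Real.sq_sqrt
    apply div_nonneg (mul_nonneg (by linarith [hU ε hε]) _) (by positivity)
    have : ε ≤ r := le_trans hε.2 hεmr.le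
    nlinarith [hε.1]
  have hlag : (ε / r * N + b ε * T) ^ 2 = ((ε / r) ^ 2 + b ε ^ 2) * (N ^ 2 + T ^ 2) := by
    have : (ε / r * N + b ε * T) ^ 2 = ((ε / r) ^ 2 + b ε ^ 2) * (N ^ 2 + T ^ 2) - (ε / r * T - b ε * N) ^ 2 := by ring
    rw [this, hε2]; ring
  have hsum : (ε / r) ^ 2 + b ε ^ 2 = (w - (1 - w) * ε - r ^ 2 + ε ^ 2) / (w - (1 - w) * ε) := by
    rw [hb2]
    generalize w - (1 - w) * ε = U at hUpos
    field_simp; ring
  have hden : 0 < w - (1 - w) * ε - r ^ 2 + ε ^ 2 := by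
    rcases hε.1.eq_or_lt with h | h
    · rw [← h]; nlinarith
    · have := hU ε hε
      positivity
  have hfin := poly_ineq (R := r ^ 2) (A := w * (1 + w) * (w - (1 - w) * e) * (1 + e) / e) (ε := ε)
    hw0 hw1 he0 hew hε.1 hC (by rw [hr2]; field_simp) (by field_simp)
  have hε1 : 0 ≤ 1 + ε := by linarith [hε.1]
  have hsq : (ε / r * N + b ε * T) ^ 2 ≤ (w / (1 - w) * (1 + ε)) ^ 2 := by
    apply pow_le_pow_left₀ _ hkey
    have := Real.sqrt_nonneg (((w - (1 - w) * ε) - r ^ 2) * (r ^ 2 - ε ^ 2) / ((w - (1 - w) * ε) * r ^ 2))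
    have h5 := hε.1
    positivity
  rw [hlag, hsum] at hsq
  rw [hT]
  have e3 : (w / (1 - w) * (1 + ε)) ^ 2 = w ^ 2 * (1 + ε) ^ 2 / (1 - w) ^ 2 := by
    field_simp
  rw [e3, div_mul_eq_mul_div, div_le_div_iff₀ hUpos (by positivity)] at hsq
  have e4 : w * (1 + w) * (w - (1 - w) * e) * (1 + e) / ((1 - w) ^ 2 * e) =
    (w * (1 + w) * (w - (1 - w) * e) * (1 + e) / e) / (1 - w) ^ 2 := by field_simp
  rw [e4, le_div_iff₀ (by positivity)]
  have h7 : (w - (1 - w) * ε - r ^ 2 + ε ^ 2) * ((N ^ 2 + T ^ 2) * (1 - w) ^ 2) ≤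
      (w - (1 - w) * ε - r ^ 2 + ε ^ 2) * (w * (1 + w) * (w - (1 - w) * e) * (1 + e) / e) := by
    linarith
  exact le_of_mul_le_mul_left h7 hden

end disc

section extremal
variable {n : ℕ}

noncomputable def g1 (Y : ℝ) (a : ℂ) : ℂ := (1 + Y * a) / (1 - Y * a)

noncomputable def g2 (Y K : ℝ) (a : ℂ) : ℂ := (K * a ^ 2) / (1 - Y * a) ^ 2

/-- the extremal mapping -/
noncomputable def extremal (i0 i1 : Fin n) (Y K : ℝ) (z : EuclideanSpace ℂ (Fin n)) : EuclideanSpace ℂ (Fin n) :=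
  g1 Y (z i0) • z + g2 Y K (z i0) • EuclideanSpace.single i1 (1:ℂ)

theorem norm_coord_le (z : EuclideanSpace ℂ (Fin n)) (i : Fin n) : ‖z i‖ ≤ ‖z‖ := by
  exact PiLp.norm_apply_le z i

theorem two_coord_le (z : EuclideanSpace ℂ (Fin n)) {i0 i1 : Fin n} (h : i0 ≠ i1) :
    ‖z i0‖ ^ 2 + ‖z i1‖ ^ 2 ≤ ‖z‖ ^ 2 := by
  rw [EuclideanSpace.norm_sq_eq]
  have : ∑ i ∈ ({i0, i1} : Finset (Fin n)), ‖z i‖ ^ 2 ≤ ∑ i, ‖z i‖ ^ 2 :=
    Finset.sum_le_sum_of_subset_of_nonneg (Finset.subset_univ _) (fun _ _ _ => by positivity)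
  rwa [Finset.sum_pair h] at this

theorem den_ne {Y : ℝ} (hY0 : 0 ≤ Y) (hY : Y ≤ 1) {a : ℂ} (ha : ‖a‖ < 1) : 1 - (Y:ℂ) * a ≠ 0 := by
  intro hh
  have h1 : (Y:ℂ) * a = 1 := by linear_combination -hh
  have h2 : ‖(Y:ℂ) * a‖ = 1 := by rw [h1]; simp
  rw [norm_mul, norm_real, Real.norm_eq_abs, abs_of_nonneg hY0] at h2
  nlinarith [norm_nonneg a]

theorem differentiableAt_g1 {Y : ℝ} {a : ℂ} (h : 1 - (Y:ℂ) * a ≠ 0) : DifferentiableAt ℂ (g1 Y) a := by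
  unfold g1
  fun_prop (disch := exact h)

theorem differentiableAt_g2 {Y K : ℝ} {a : ℂ} (h : 1 - (Y:ℂ) * a ≠ 0) : DifferentiableAt ℂ (g2 Y K) a := by
  unfold g2
  have := pow_ne_zero 2 h
  fun_prop (disch := exact this)

theorem hasDerivAt_g2 (Y K : ℝ) : HasDerivAt (g2 Y K) 0 0 := by
  have h : DifferentiableAt ℂ (fun a : ℂ => K * a / (1 - Y * a) ^ 2) 0 := by
    fun_prop (disch := simp)
  have h2 := h.hasDerivAt.mul (hasDerivAt_id (0:ℂ))
  have h3 : HasDerivAt (fun a : ℂ => (K * a / (1 - Y * a) ^ 2) * a) 0 0 := by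
    refine (h2.congr_deriv ?_)
    simp
  refine h3.congr_of_eventuallyEq ?_
  filter_upwards with a
  unfold g2; ring

theorem differentiableAt_extremal (i0 i1 : Fin n) {Y K : ℝ} (hY0 : 0 ≤ Y) (hY : Y ≤ 1)
    {z : EuclideanSpace ℂ (Fin n)} (hz : ‖z‖ < 1) : DifferentiableAt ℂ (extremal i0 i1 Y K) z := by
  have hd : DifferentiableAt ℂ (fun z : EuclideanSpace ℂ (Fin n) => z i0) z :=
    (EuclideanSpace.proj (𝕜 := ℂ) i0).differentiableAt
  have hne := den_ne hY0 hY (lt_of_le_of_lt (norm_coord_le z i0) hz)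
  have e1 : DifferentiableAt ℂ (fun z : EuclideanSpace ℂ (Fin n) => g1 Y (z i0)) z :=
    DifferentiableAt.comp (f := fun z : EuclideanSpace ℂ (Fin n) => z i0) z (differentiableAt_g1 hne) hd
  have e2 : DifferentiableAt ℂ (fun z : EuclideanSpace ℂ (Fin n) => g2 Y K (z i0)) z :=
    DifferentiableAt.comp (f := fun z : EuclideanSpace ℂ (Fin n) => z i0) z (differentiableAt_g2 hne) hd
  exact (e1.smul differentiableAt_id).add (e2.smul_const _)

theorem hasFDerivAt_extremal_zero (i0 i1 : Fin n) {Y K : ℝ} :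
    HasFDerivAt (extremal i0 i1 Y K) (ContinuousLinearMap.id ℂ (EuclideanSpace ℂ (Fin n))) 0 := by
  have hp : HasFDerivAt (fun z : EuclideanSpace ℂ (Fin n) => z i0) (EuclideanSpace.proj (𝕜 := ℂ) i0) 0 :=
    (EuclideanSpace.proj (𝕜 := ℂ) i0).hasFDerivAt
  have hz : (0 : EuclideanSpace ℂ (Fin n)) i0 = 0 := rfl
  have e1 : HasFDerivAt (fun z : EuclideanSpace ℂ (Fin n) => g1 Y (z i0))
      (deriv (g1 Y) 0 • (EuclideanSpace.proj (𝕜 := ℂ) i0)) 0 := by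
    have := (differentiableAt_g1 (Y := Y) (a := 0) (by simp)).hasDerivAt
    rw [← hz] at this
    exact this.comp_hasFDerivAt (0 : EuclideanSpace ℂ (Fin n)) hp
  have e2 : HasFDerivAt (fun z : EuclideanSpace ℂ (Fin n) => g2 Y K (z i0))
      ((0:ℂ) • (EuclideanSpace.proj (𝕜 := ℂ) i0)) 0 := by
    have := (hasDerivAt_g2 Y K)
    rw [← hz] at this
    exact this.comp_hasFDerivAt (0 : EuclideanSpace ℂ (Fin n)) hp
  have h3 := (e1.smul (hasFDerivAt_id (𝕜 := ℂ) (0 : EuclideanSpace ℂ (Fin n)))).add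
    (e2.smul_const (EuclideanSpace.single i1 (1:ℂ)))
  refine h3.congr_fderiv ?_
  refine ContinuousLinearMap.ext fun v => ?_
  simp [g1]

theorem key_cubic {c s K Y2 β : ℝ} (hc0 : 0 ≤ c) (hc1 : c < 1) (hs : 0 < s) (hs2 : s ^ 2 * (3 - c) = 1 - c)
    (hK : K * (2 * s) = (1 - c) * (3 - c)) (hY : Y2 = c * (3 - c) / 2) (hβ : 0 ≤ β) :
    (1 - β ^ 2) * (K * β + Y2) ≤ 1 := by
  have h3 : 0 < 3 - c := by linarith
  have hKpos : 0 < K := by
    have : 0 < K * (2 * s) := by rw [hK]; exact mul_pos (by linarith) h3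
    exact pos_of_mul_pos_left this (by positivity)
  have hY0 : 0 ≤ Y2 := by rw [hY]; positivity
  -- first relation  K = 3 K s^2 + 2 s Y2
  have r1 : K = 3 * K * s ^ 2 + 2 * s * Y2 := by
    have : 0 < 2 * s * (3 - c) := by positivity
    apply mul_left_cancel₀ this.ne'
    rw [hY]
    linear_combination ((3 - c) - 3 * s ^ 2 * (3 - c)) * hK + (-3 * (1 - c) * (3 - c) - 2 * c * (3 - c)) * hs2
  have r2 : 1 - Y2 = s ^ 2 * (2 * K * s + Y2) := by
    rw [hY]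
    linear_combination (-s ^ 2) * hK + (-(1 - c) - c / 2) * hs2
  have hid : 1 - (1 - β ^ 2) * (K * β + Y2) = (β - s) ^ 2 * (K * β + 2 * K * s + Y2) := by
    linear_combination (-β) * r1 + r2
  have : 0 ≤ (β - s) ^ 2 * (K * β + 2 * K * s + Y2) := by positivity
  linarith

theorem key_homog {c s K Y2 : ℝ} (hc0 : 0 ≤ c) (hc1 : c < 1) (hs : 0 < s) (hs2 : s ^ 2 * (3 - c) = 1 - c)
    (hK : K * (2 * s) = (1 - c) * (3 - c)) (hY : Y2 = c * (3 - c) / 2)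
    {a b t : ℝ} (_ha : 0 ≤ a) (hb : 0 ≤ b) (ht0 : 0 < t) (ht1 : t < 1) (hab : a ^ 2 + b ^ 2 ≤ t ^ 2) :
    K * a ^ 2 * b < t ^ 2 * (1 - Y2 * a ^ 2) := by
  have h3 : 0 < 3 - c := by linarith
  have hKpos : 0 < K := by
    have : 0 < K * (2 * s) := by rw [hK]; exact mul_pos (by linarith) h3
    exact pos_of_mul_pos_left this (by positivity)
  have hY0 : 0 ≤ Y2 := by rw [hY]; positivity
  have h1 := key_cubic hc0 hc1 hs hs2 hK hY (β := b / t) (by positivity)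
  have h2 : (t ^ 2 - b ^ 2) * (K * b + Y2 * t) ≤ t ^ 3 := by
    have h5 : t ^ 3 * ((1 - (b / t) ^ 2) * (K * (b / t) + Y2)) ≤ t ^ 3 * 1 :=
      mul_le_mul_of_nonneg_left h1 (by positivity)
    have h6 : t ^ 3 * ((1 - (b / t) ^ 2) * (K * (b / t) + Y2)) = (t ^ 2 - b ^ 2) * (K * b + Y2 * t) := by
      field_simp
    linarith
  have h4 : a ^ 2 * (K * b + Y2 * t ^ 2) ≤ (t ^ 2 - b ^ 2) * (K * b + Y2 * t) := by
    apply mul_le_mul (by linarith) _ (by positivity) (by nlinarith)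
    have : Y2 * t ^ 2 ≤ Y2 * t := mul_le_mul_of_nonneg_left (by nlinarith) hY0
    linarith
  have h7 : t ^ 3 < t ^ 2 := by nlinarith [pow_pos ht0 2]
  nlinarith

theorem re_g1 {Y : ℝ} {a : ℂ} (h : 1 - (Y:ℂ) * a ≠ 0) :
    (g1 Y a).re = (1 - Y ^ 2 * ‖a‖ ^ 2) / normSq (1 - (Y:ℂ) * a) := by
  unfold g1
  have hn : normSq (1 - (Y:ℂ) * a) ≠ 0 := (normSq_pos.mpr h).ne'
  rw [div_re, ← add_div]
  congr 1
  rw [← normSq_eq_norm_sq, normSq_apply]
  simp
  ring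

theorem norm_g2 {Y K : ℝ} (hK : 0 ≤ K) (a : ℂ) :
    ‖g2 Y K a‖ = K * ‖a‖ ^ 2 / normSq (1 - (Y:ℂ) * a) := by
  unfold g2
  rw [norm_div, norm_mul, norm_pow, norm_pow, norm_real, Real.norm_eq_abs, abs_of_nonneg hK, normSq_eq_norm_sq]

theorem extremal_pos {i0 i1 : Fin n} (hi : i0 ≠ i1) {c s K Y : ℝ} (hc0 : 0 ≤ c) (hc1 : c < 1) (hs : 0 < s)
    (hs2 : s ^ 2 * (3 - c) = 1 - c)
    (hK : K * (2 * s) = (1 - c) * (3 - c)) (hY : Y ^ 2 = c * (3 - c) / 2) (hY0 : 0 ≤ Y) (hY1 : Y ≤ 1)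
    {z : EuclideanSpace ℂ (Fin n)} (hz : ‖z‖ < 1) (hz0 : z ≠ 0) :
    0 < (inner ℂ z (extremal i0 i1 Y K z)).re := by
  have h3 : 0 < 3 - c := by linarith
  have hKpos : 0 < K := by
    have : 0 < K * (2 * s) := by rw [hK]; exact mul_pos (by linarith) h3
    exact pos_of_mul_pos_left this (by positivity)
  have hne := den_ne hY0 hY1 (lt_of_le_of_lt (norm_coord_le z i0) hz)
  have hn : 0 < normSq (1 - (Y:ℂ) * z i0) := normSq_pos.mpr hne
  have hin : inner ℂ z (extremal i0 i1 Y K z) = g1 Y (z i0) * ((‖z‖ ^ 2 : ℝ) : ℂ) + g2 Y K (z i0) * (starRingEnd ℂ) (z i1) := by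
    unfold extremal
    rw [inner_add_right, inner_smul_right, inner_smul_right, inner_self_eq_norm_sq_to_K,
      EuclideanSpace.inner_single_right]
    simp
  rw [hin, add_re, re_mul_ofReal, re_g1 hne]
  have h1 : -(‖g2 Y K (z i0)‖ * ‖z i1‖) ≤ (g2 Y K (z i0) * (starRingEnd ℂ) (z i1)).re := by
    have := abs_re_le_norm (g2 Y K (z i0) * (starRingEnd ℂ) (z i1))
    rw [norm_mul, RCLike.norm_conj] at this
    exact (abs_le.mp this).1
  rw [norm_g2 hKpos.le] at h1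
  have h2 := key_homog hc0 hc1 hs hs2 hK hY (norm_nonneg (z i0)) (norm_nonneg (z i1)) (norm_pos_iff.mpr hz0) hz
    (two_coord_le z hi)
  have h4 : 0 < (‖z‖ ^ 2 * (1 - Y ^ 2 * ‖z i0‖ ^ 2) - K * ‖z i0‖ ^ 2 * ‖z i1‖) / normSq (1 - (Y:ℂ) * z i0) :=
    div_pos (by linarith) hn
  have h5 : (1 - Y ^ 2 * ‖z i0‖ ^ 2) / normSq (1 - (Y:ℂ) * z i0) * ‖z‖ ^ 2 - K * ‖z i0‖ ^ 2 / normSq (1 - (Y:ℂ) * z i0) * ‖z i1‖
    = (‖z‖ ^ 2 * (1 - Y ^ 2 * ‖z i0‖ ^ 2) - K * ‖z i0‖ ^ 2 * ‖z i1‖) / normSq (1 - (Y:ℂ) * z i0) := by ring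
  linarith

theorem extremal_value {i0 i1 : Fin n} (hi : i0 ≠ i1) {w e R M : ℝ} (hw0 : 0 < w) (hw1 : w < 1) (he0 : 0 < e) (hew : e < w)
    (hC : (2 - w) * (1 - w) * e ^ 2 - (1 + 2 * w - 2 * w ^ 2 + w ^ 3) * e + w * (1 - w ^ 2) = 0)
    (hR : R = w - (1 - w) * e - e * (w - e) / (1 + w))
    (hM : M = w * (1 + w) * (w - (1 - w) * e) * (1 + e) / ((1 - w) ^ 2 * e)) :
    ∃ h ∈ Carath n, ∃ z : EuclideanSpace ℂ (Fin n), ‖z‖ ^ 2 = R ∧ ‖h z‖ ^ 2 = M := by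
  have hw1' : 0 < 1 - w := by linarith
  have hXw : w ^ 2 < w - (1 - w) * e := by nlinarith
  set X := w - (1 - w) * e with hX
  have hw2 : 0 < w ^ 2 := by positivity
  have hX0 : 0 < X := by linarith
  set c := w ^ 2 / X with hc
  have hcX : c * X = w ^ 2 := by rw [hc]; field_simp
  have hc0 : 0 < c := by rw [hc]; positivity
  have hc1 : c < 1 := by rw [hc, div_lt_one hX0]; exact hXw
  have h3 : 0 < 3 - c := by linarith
  have h1c : 0 < 1 - c := by linarith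
  have hs2' : 0 < (1 - c) / (3 - c) := by positivity
  set s := Real.sqrt ((1 - c) / (3 - c)) with hs
  have hs0 : 0 < s := Real.sqrt_pos.mpr hs2'
  have hssq : s ^ 2 = (1 - c) / (3 - c) := Real.sq_sqrt hs2'.le
  have hs2 : s ^ 2 * (3 - c) = 1 - c := by rw [hssq]; field_simp
  set α := Real.sqrt (2 * X / (3 - c)) with hα
  have hα2' : 0 < 2 * X / (3 - c) := by positivity
  have hα0 : 0 < α := Real.sqrt_pos.mpr hα2'
  have hαsq : α ^ 2 = 2 * X / (3 - c) := Real.sq_sqrt hα2'.le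
  set Y := Real.sqrt (c * (3 - c) / 2) with hY
  have hY2' : 0 < c * (3 - c) / 2 := by positivity
  have hY0 : 0 < Y := Real.sqrt_pos.mpr hY2'
  have hYsq : Y ^ 2 = c * (3 - c) / 2 := Real.sq_sqrt hY2'.le
  have hY1 : Y ≤ 1 := by
    rw [hY, Real.sqrt_le_one]; nlinarith
  have hYα : Y * α = w := by
    have h1 : (Y * α) ^ 2 = w ^ 2 := by
      rw [mul_pow, hYsq, hαsq, ← hcX]; field_simp
    exact (pow_left_inj₀ (by positivity) hw0.le two_ne_zero).mp h1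
  set K := (1 - c) * (3 - c) / (2 * s) with hKdef
  have hK : K * (2 * s) = (1 - c) * (3 - c) := by rw [hKdef]; field_simp
  have hK0 : 0 < K := by positivity
  have hmem : extremal i0 i1 Y K ∈ Carath n := by
    refine ⟨fun z hz => ?_, ?_, ?_, fun z hz hz0 => ?_⟩
    · exact (differentiableAt_extremal i0 i1 hY0.le hY1 (by simpa using hz)).differentiableWithinAt
    · simp [extremal, g2]
    · exact (hasFDerivAt_extremal_zero i0 i1).fderiv
    · exact extremal_pos hi hc0.le hc1 hs0 hs2 hK hYsq hY0.le hY1 (by simpa using hz) hz0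
  have n0 : ‖(EuclideanSpace.single i0 (1:ℂ) : EuclideanSpace ℂ (Fin n))‖ = 1 := by simp
  have n1 : ‖(EuclideanSpace.single i1 (1:ℂ) : EuclideanSpace ℂ (Fin n))‖ = 1 := by simp
  have n01 : inner ℂ (EuclideanSpace.single i0 (1:ℂ) : EuclideanSpace ℂ (Fin n)) (EuclideanSpace.single i1 (1:ℂ)) = 0 := by
    rw [EuclideanSpace.inner_single_left]; simp [hi]
  set z : EuclideanSpace ℂ (Fin n) := ((α:ℝ):ℂ) • EuclideanSpace.single i0 (1:ℂ) + (((s * e : ℝ)):ℂ) • EuclideanSpace.single i1 (1:ℂ) with hz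
  have hz0 : z i0 = α := by
    simp [hz, hi]
  refine ⟨extremal i0 i1 Y K, hmem, z, ?_, ?_⟩
  · rw [hz, norm_comb_sq n0 n1 n01, norm_real, norm_real, Real.norm_eq_abs, Real.norm_eq_abs, sq_abs, sq_abs,
      mul_pow, hαsq, hssq, hR]
    have h3X : 0 < 3 * X - w ^ 2 := by linarith
    have e0 : 2 * X / (3 - c) + (1 - c) / (3 - c) * e ^ 2 = (2 * X ^ 2 + (X - w ^ 2) * e ^ 2) / (3 * X - w ^ 2) := by
      rw [div_mul_eq_mul_div, ← add_div, div_eq_div_iff h3.ne' h3X.ne', ← hcX]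
      ring
    rw [e0, div_eq_iff h3X.ne', hX]
    have hne : (1 + w) ≠ 0 := by positivity
    apply mul_left_cancel₀ hne
    field_simp
    linear_combination (-(w - e)) * hC
  · have hg1 : g1 Y (z i0) = (((1 + w) / (1 - w) : ℝ) : ℂ) := by
      rw [hz0, g1]
      rw [← hYα]; push_cast; ring
    have hg2 : g2 Y K (z i0) = ((K * α ^ 2 / (1 - w) ^ 2 : ℝ) : ℂ) := by
      rw [hz0, g2]
      rw [← hYα]; push_cast; ring
    have hval : extremal i0 i1 Y K z = (((1 + w) / (1 - w) * α : ℝ) : ℂ) • EuclideanSpace.single i0 (1:ℂ) +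
        (((1 + w) / (1 - w) * (s * e) + K * α ^ 2 / (1 - w) ^ 2 : ℝ) : ℂ) • EuclideanSpace.single i1 (1:ℂ) := by
      rw [extremal, hg1, hg2, hz]
      push_cast
      module
    rw [hval, norm_comb_sq n0 n1 n01, norm_real, norm_real, Real.norm_eq_abs, Real.norm_eq_abs, sq_abs, sq_abs, hM]
    have hKα : K * α ^ 2 = (1 - c) * X / s := by
      rw [hKdef, hαsq]; field_simp
    rw [hKα]
    have e1 : ((1 + w) / (1 - w) * α) ^ 2 + ((1 + w) / (1 - w) * (s * e) + (1 - c) * X / s / (1 - w) ^ 2) ^ 2 =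
      ((1 + w) / (1 - w)) ^ 2 * (α ^ 2 + s ^ 2 * e ^ 2) + 2 * ((1 + w) / (1 - w)) * e * ((1 - c) * X) / (1 - w) ^ 2
        + ((1 - c) * X) ^ 2 / s ^ 2 / (1 - w) ^ 4 := by
      field_simp
      ring
    rw [e1, hαsq, hssq]
    have h3X : 0 < 3 * X - w ^ 2 := by linarith
    have hXw' : 0 < X - w ^ 2 := by linarith
    have e0 : 2 * X / (3 - c) + (1 - c) / (3 - c) * e ^ 2 = (2 * X ^ 2 + (X - w ^ 2) * e ^ 2) / (3 * X - w ^ 2) := by
      rw [div_mul_eq_mul_div, ← add_div, div_eq_div_iff h3.ne' h3X.ne', ← hcX]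
      ring
    have e2 : (1 - c) * X = X - w ^ 2 := by rw [← hcX]; ring
    have e3 : ((1 - c) * X) ^ 2 / ((1 - c) / (3 - c)) = (X - w ^ 2) * (3 * X - w ^ 2) := by
      rw [← hcX]; field_simp
    have e4 : (2 * X ^ 2 + (X - w ^ 2) * e ^ 2) / (3 * X - w ^ 2) = X - e * (w - e) / (1 + w) := by
      rw [div_eq_iff h3X.ne', hX]
      have hne : (1 + w) ≠ 0 := by positivity
      apply mul_left_cancel₀ hne
      field_simp
      linear_combination (-(w - e)) * hC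
    rw [e0, e3, e2, e4, hX]
    field_simp
    linear_combination ((w - 1) * (w - e)) * hC

end extremal

theorem exists_orth {n : ℕ} (hn : 2 ≤ n) (z : EuclideanSpace ℂ (Fin n)) :
    ∃ u : EuclideanSpace ℂ (Fin n), ‖u‖ = 1 ∧ inner ℂ z u = 0 := by
  have h1 := Submodule.finrank_add_finrank_orthogonal (𝕜 := ℂ) (Submodule.span ℂ {z})
  have h2 : Module.finrank ℂ (Submodule.span ℂ {z}) ≤ 1 := by
    have := finrank_span_le_card (R := ℂ) ({z} : Set (EuclideanSpace ℂ (Fin n)))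
    simpa using this
  rw [finrank_euclideanSpace_fin] at h1
  have h3 : (Submodule.span ℂ {z})ᗮ ≠ ⊥ := by
    intro h
    rw [h, finrank_bot] at h1
    omega
  obtain ⟨v, hv, hv0⟩ := Submodule.exists_mem_ne_zero_of_ne_bot h3
  refine ⟨((‖v‖⁻¹ : ℝ) : ℂ) • v, ?_, ?_⟩
  · rw [norm_smul, norm_real, norm_inv, norm_norm]
    have : ‖v‖ ≠ 0 := by simpa using hv0
    field_simp
  · rw [inner_smul_right, (Submodule.mem_orthogonal_singleton_iff_inner_right).mp hv, mul_zero]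

theorem XX_eq {w : ℝ} (h1 : w < 1) :
    (2 - w) * XX w ^ 2 + (1 - 2 * w + w ^ 3) * XX w - w ^ 2 = 0 := by
  unfold XX
  have h2 : (2 - w) ≠ 0 := by linarith
  have h3 : 0 ≤ (1 - 2 * w + w ^ 3) ^ 2 + 4 * (2 - w) * w ^ 2 := by
    have : 0 < 2 - w := by linarith
    positivity
  have h4 := Real.sq_sqrt h3
  set s := √((1 - 2 * w + w ^ 3) ^ 2 + 4 * (2 - w) * w ^ 2)
  field_simp
  linear_combination h4

theorem XX_pos {w : ℝ} (h0 : 0 < w) (h1 : w < 1) : 0 < XX w := by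
  unfold XX
  have h2 : 0 < 2 - w := by linarith
  apply div_pos _ (by positivity)
  have : |1 - 2 * w + w ^ 3| < √((1 - 2 * w + w ^ 3) ^ 2 + 4 * (2 - w) * w ^ 2) := by
    rw [← Real.sqrt_sq_eq_abs]
    apply Real.sqrt_lt_sqrt (sq_nonneg _)
    have : 0 < 4 * (2 - w) * w ^ 2 := by positivity
    linarith
  linarith [le_abs_self (1 - 2 * w + w ^ 3)]

theorem sq_lt_of {w X : ℝ} (h0 : 0 < w) (h1 : w < 1) (hX : 0 < X)
    (hC : (2 - w) * X ^ 2 + (1 - 2 * w + w ^ 3) * X - w ^ 2 = 0) : w ^ 2 < X := by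
  by_contra hcon
  push Not at hcon
  have hA : 0 < (2 - w) * X ^ 2 := by
    have : 0 < 2 - w := by linarith
    positivity
  -- F(X) / X is increasing : (2-w) X + (1-2w+w^3) - w^2/X
  have h3 : X * ((2 - w) * X + (1 - 2 * w + w ^ 3)) = w ^ 2 := by linarith
  have h4 : (2 - w) * X + (1 - 2 * w + w ^ 3) < 1 := by
    have : (2 - w) * X ≤ (2 - w) * w ^ 2 := by
      apply mul_le_mul_of_nonneg_left hcon; linarith
    nlinarith [mul_pos h0 (sub_pos.mpr h1)]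
  nlinarith

theorem lt_of {w X : ℝ} (h0 : 0 < w) (h1 : w < 1) (hX : 0 < X)
    (hC : (2 - w) * X ^ 2 + (1 - 2 * w + w ^ 3) * X - w ^ 2 = 0) : X < w := by
  by_contra hcon
  push Not at hcon
  have h3 : X * ((2 - w) * X + (1 - 2 * w + w ^ 3)) = w ^ 2 := by linarith
  have h4 : w < (2 - w) * X + (1 - 2 * w + w ^ 3) := by
    have : (2 - w) * w ≤ (2 - w) * X := by
      apply mul_le_mul_of_nonneg_left hcon; linarith
    have h5 : 0 < (1 - w) ^ 2 * (1 + w) := by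
      have : 0 < 1 - w := by linarith
      positivity
    nlinarith
  have h5 : w * w < X * ((2 - w) * X + (1 - 2 * w + w ^ 3)) := by
    have := mul_le_mul_of_nonneg_right hcon h0.le
    nlinarith
  nlinarith

theorem XX_lt {w : ℝ} (h0 : 0 < w) (h1 : w < 1) : XX w < w := lt_of h0 h1 (XX_pos h0 h1) (XX_eq h1)

theorem lt_XX {w : ℝ} (h0 : 0 < w) (h1 : w < 1) : w ^ 2 < XX w := sq_lt_of h0 h1 (XX_pos h0 h1) (XX_eq h1)

theorem RR_eq {w : ℝ} (h0 : 0 < w) (h1 : w < 1) :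
    RR w = XX w * (w * (1 + w) + (1 - w) * XX w) / (w + (2 - w) * XX w) := by
  have hC := XX_eq h1
  have hp := XX_pos h0 h1
  unfold RR
  have h2 : 0 < w + (2 - w) * XX w := by
    have : 0 < 2 - w := by linarith
    positivity
  have h3 : 0 < (1 - w) ^ 2 * (1 + w) := by
    have : 0 < 1 - w := by linarith
    positivity
  have h4 : (w - XX w) / ((1 - w) ^ 2 * (1 + w)) = XX w / (w + (2 - w) * XX w) := by
    rw [div_eq_div_iff h3.ne' h2.ne']
    linear_combination -hC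
  rw [mul_div_right_comm, h4, eq_div_iff h2.ne']
  have h5 : XX w / (w + (2 - w) * XX w) * (w + (2 - w) * XX w) = XX w := div_mul_cancel₀ _ h2.ne'
  linear_combination (-(XX w - w ^ 2)) * h5

theorem XX_mono {w1 w2 : ℝ} (h0 : 0 < w1) (h12 : w1 < w2) (h1 : w2 < 1) : XX w1 < XX w2 := by
  by_contra hcon
  push Not at hcon
  have hw1 : w1 < 1 := h12.trans h1
  have hw2 : 0 < w2 := h0.trans h12
  have a1 := XX_eq hw1
  have a2 := XX_eq h1
  have b1 := XX_pos h0 hw1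
  have b2 := XX_pos hw2 h1
  have c1 := XX_lt h0 hw1
  set X1 := XX w1
  set X2 := XX w2
  have hF : 0 ≤ (2 - w2) * X1 ^ 2 + (1 - 2 * w2 + w2 ^ 3) * X1 - w2 ^ 2 := by
    have e1 : X2 * ((2 - w2) * X2 + (1 - 2 * w2 + w2 ^ 3)) = w2 ^ 2 := by linarith
    have e2 : 0 < (2 - w2) * X2 + (1 - 2 * w2 + w2 ^ 3) := by
      have : 0 < X2 * ((2 - w2) * X2 + (1 - 2 * w2 + w2 ^ 3)) := by rw [e1]; positivity
      exact pos_of_mul_pos_right this b2.le
    have e3 : X2 * ((2 - w2) * X2 + (1 - 2 * w2 + w2 ^ 3)) ≤ X1 * ((2 - w2) * X1 + (1 - 2 * w2 + w2 ^ 3)) := by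
      apply mul_le_mul hcon _ e2.le b1.le
      have : (2 - w2) * X2 ≤ (2 - w2) * X1 := mul_le_mul_of_nonneg_left hcon (by linarith)
      linarith
    linarith
  have hneg : (w2 - w1) * (-X1 ^ 2 - 2 * X1 + (w1 ^ 2 + w1 * w2 + w2 ^ 2) * X1 - (w1 + w2)) < 0 := by
    apply mul_neg_of_pos_of_neg (by linarith)
    have : w1 ^ 2 + w1 * w2 + w2 ^ 2 ≤ 3 := by nlinarith
    have : (w1 ^ 2 + w1 * w2 + w2 ^ 2) * X1 ≤ 3 * X1 := mul_le_mul_of_nonneg_right this b1.le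
    nlinarith
  have : (2 - w2) * X1 ^ 2 + (1 - 2 * w2 + w2 ^ 3) * X1 - w2 ^ 2 =
      (w2 - w1) * (-X1 ^ 2 - 2 * X1 + (w1 ^ 2 + w1 * w2 + w2 ^ 2) * X1 - (w1 + w2)) := by
    linear_combination a1
  linarith

theorem RR_mono {w1 w2 : ℝ} (h0 : 0 < w1) (h12 : w1 < w2) (h1 : w2 < 1) : RR w1 < RR w2 := by
  have hw1 : w1 < 1 := h12.trans h1
  have hw2 : 0 < w2 := h0.trans h12
  rw [RR_eq h0 hw1, RR_eq hw2 h1]
  have hX := XX_mono h0 h12 h1
  have b1 := XX_pos h0 hw1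
  have b2 := XX_pos hw2 h1
  have c2 := (XX_lt hw2 h1).trans h1
  set X1 := XX w1
  set X2 := XX w2
  have p1 : 0 < 1 - w1 := by linarith
  have p2 : 0 < 2 - w1 := by linarith
  have p3 : 0 < 2 - w2 := by linarith
  have p4 : 0 < 1 - X2 := by linarith
  have s1 : X1 * (w1 * (1 + w1) + (1 - w1) * X1) / (w1 + (2 - w1) * X1) <
      X2 * (w1 * (1 + w1) + (1 - w1) * X2) / (w1 + (2 - w1) * X2) := by
    rw [div_lt_div_iff₀ (by positivity) (by positivity)]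
    have : 0 < (X2 - X1) * (w1 * (1 + w1) * w1 + (1 - w1) * w1 * (X1 + X2) + (1 - w1) * (2 - w1) * X1 * X2) := by
      apply mul_pos (by linarith); positivity
    nlinarith
  have s2 : X2 * (w1 * (1 + w1) + (1 - w1) * X2) / (w1 + (2 - w1) * X2) <
      X2 * (w2 * (1 + w2) + (1 - w2) * X2) / (w2 + (2 - w2) * X2) := by
    rw [div_lt_div_iff₀ (by positivity) (by positivity)]
    have : 0 < X2 * ((w2 - w1) * ((1 - X2) * w1 * w2 + 2 * X2 * (w1 + w2) + X2 * (1 - X2))) := by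
      apply mul_pos b2; apply mul_pos (by linarith); positivity
    nlinarith
  exact s1.trans s2

theorem RR_lt {w : ℝ} (h0 : 0 < w) (h1 : w < 1) : RR w < w := by
  have h2 := XX_lt h0 h1
  have h3 := lt_XX h0 h1
  unfold RR
  have : 0 < (w - XX w) * (XX w - w ^ 2) / ((1 - w) ^ 2 * (1 + w)) := by
    have : 0 < 1 - w := by linarith
    apply div_pos (mul_pos (by linarith) (by linarith)) (by positivity)
  linarith

theorem lt_RR {w : ℝ} (h0 : 0 < w) (h1 : w < 1) : w ^ 2 < RR w := by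
  have h2 := XX_lt h0 h1
  have h3 := lt_XX h0 h1
  have hp := XX_pos h0 h1
  have : 0 < 1 - w := by linarith
  have : 0 < 2 - w := by linarith
  rw [RR_eq h0 h1, lt_div_iff₀ (by positivity)]
  have : 0 < (XX w - w ^ 2) * (w + (1 - w) * XX w) := by
    apply mul_pos (by linarith); positivity
  nlinarith

theorem continuousOn_RR : ContinuousOn RR (Ioo 0 1) := by
  have hX : ContinuousOn XX (Ioo 0 1) := by
    unfold XX
    apply ContinuousOn.div (by fun_prop) (by fun_prop)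
    intro w hw
    have : 0 < 2 - w := by linarith [hw.2]
    positivity
  unfold RR
  apply hX.sub
  apply ContinuousOn.div (by fun_prop) (by fun_prop)
  intro w hw
  have : 0 < 1 - w := by linarith [hw.2]
  have : 0 < 1 + w := by linarith [hw.1]
  positivity

theorem RR_surj {r : ℝ} (h0 : 0 < r) (h1 : r < 1) : ∃ w ∈ Ioo (0:ℝ) 1, RR w = r ^ 2 := by
  have hr2 : r ^ 2 < r := by nlinarith
  have hr2' : 0 < r ^ 2 := by positivity
  have hsub : Icc (r ^ 2) r ⊆ Ioo 0 1 := fun w hw => ⟨lt_of_lt_of_le hr2' hw.1, lt_of_le_of_lt hw.2 h1⟩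
  have := intermediate_value_Icc hr2.le (continuousOn_RR.mono hsub)
  have hmem : r ^ 2 ∈ Icc (RR (r ^ 2)) (RR r) :=
    ⟨(RR_lt hr2' (by linarith)).le, (lt_RR h0 h1).le⟩
  obtain ⟨w, hw, hw2⟩ := this hmem
  exact ⟨w, hsub hw, hw2⟩

/-- For `n ≥ 2`, `w ↦ √(RR w)` is a strictly increasing bijection of `(0,1)` onto `(0,1)`, and for
`r = √(RR w)` the maximum of `‖h z‖` over `h ∈ M`, `‖z‖ = r` is `√(MM w)`. -/
theorem result (n : ℕ) (hn : 2 ≤ n) :
    StrictMonoOn (fun w => √(RR w)) (Ioo 0 1) ∧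
    BijOn (fun w => √(RR w)) (Ioo 0 1) (Ioo 0 1) ∧
    ∀ w ∈ Ioo (0 : ℝ) 1, IsGreatest (growthValues n (√(RR w))) (√(MM w)) := by
  have hRpos : ∀ w ∈ Ioo (0:ℝ) 1, 0 < RR w := fun w hw =>
    lt_trans (by have := hw.1; positivity) (lt_RR hw.1 hw.2)
  have hmono : StrictMonoOn (fun w => √(RR w)) (Ioo 0 1) := by
    intro a ha b hb hab
    exact Real.sqrt_lt_sqrt (hRpos a ha).le (RR_mono ha.1 hab hb.2)
  refine ⟨hmono, ⟨?_, hmono.injOn, ?_⟩, ?_⟩
  · intro w hw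
    refine ⟨Real.sqrt_pos.mpr (hRpos w hw), ?_⟩
    show √(RR w) < 1
    rw [Real.sqrt_lt' one_pos]
    have := RR_lt hw.1 hw.2
    have := hw.2
    linarith
  · intro r hr
    obtain ⟨w, hw, hw2⟩ := RR_surj hr.1 hr.2
    refine ⟨w, hw, ?_⟩
    show √(RR w) = r
    rw [hw2, Real.sqrt_sq hr.1.le]
  · intro w hw
    have hw0 := hw.1
    have hw1 := hw.2
    have hw1' : 0 < 1 - w := by linarith
    have hX1 := XX_lt hw0 hw1
    have hX2 := lt_XX hw0 hw1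
    have hX0 := XX_pos hw0 hw1
    have hCX := XX_eq hw1
    obtain ⟨e, he⟩ : ∃ e : ℝ, e = (w - XX w) / (1 - w) := ⟨_, rfl⟩
    have hXe : XX w = w - (1 - w) * e := by rw [he]; field_simp; ring
    have he0 : 0 < e := by rw [he]; exact div_pos (by linarith) hw1'
    have hew : e < w := by
      rw [he, div_lt_iff₀ hw1']; nlinarith
    have hC : (2 - w) * (1 - w) * e ^ 2 - (1 + 2 * w - 2 * w ^ 2 + w ^ 3) * e + w * (1 - w ^ 2) = 0 := by
      have h1 : (1 - w) * ((2 - w) * (1 - w) * e ^ 2 - (1 + 2 * w - 2 * w ^ 2 + w ^ 3) * e + w * (1 - w ^ 2)) = 0 := by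
        rw [hXe] at hCX
        linear_combination hCX
      exact (mul_eq_zero.mp h1).resolve_left hw1'.ne'
    have heK : e < (1 - w) * (1 + w) := by
      have h1 : XX w * ((1 - w) * ((1 - w) * (1 + w) - e)) = (w - XX w) * (w + (1 - w) * XX w) := by
        rw [hXe] at hCX ⊢
        linear_combination hCX
      have h2 : 0 < (w - XX w) * (w + (1 - w) * XX w) := mul_pos (by linarith) (by positivity)
      rw [← h1] at h2
      have h3 := pos_of_mul_pos_right h2 hX0.le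
      have h4 := pos_of_mul_pos_right h3 hw1'.le
      linarith
    have hR : RR w = w - (1 - w) * e - e * (w - e) / (1 + w) := by
      have h1 : 0 < 1 + w := by linarith
      unfold RR
      rw [hXe]
      field_simp
      ring
    have hM : MM w = w * (1 + w) * (w - (1 - w) * e) * (1 + e) / ((1 - w) ^ 2 * e) := by
      unfold MM
      rw [hXe]
      field_simp
      ring
    constructor
    · have hi : (⟨0, by omega⟩ : Fin n) ≠ ⟨1, by omega⟩ := by simp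
      obtain ⟨h, hh, z, hz, hv⟩ := extremal_value hi hw0 hw1 he0 hew hC hR hM
      refine ⟨h, hh, z, ?_, ?_⟩
      · rw [← hz, Real.sqrt_sq (norm_nonneg _)]
      · rw [← hv, Real.sqrt_sq (norm_nonneg _)]
    · rintro t ⟨h, ⟨hd, h0, h1, hp⟩, z, hz, rfl⟩
      have hsq : √(RR w) ^ 2 = RR w := Real.sq_sqrt (hRpos w hw).le
      have h1' : HasFDerivAt h (ContinuousLinearMap.id ℂ (EuclideanSpace ℂ (Fin n))) 0 := by
        rw [← h1]
        exact (hd.differentiableAt (isOpen_ball.mem_nhds (mem_ball_self one_pos))).hasFDerivAt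
      have hp' : ∀ z ∈ ball (0 : EuclideanSpace ℂ (Fin n)) 1, 0 ≤ (inner ℂ z (h z)).re := by
        intro z hz
        by_cases hz0 : z = 0
        · simp [hz0]
        · exact (hp z hz hz0).le
      have hup := upper hd h0 h1' hp' (Real.sqrt_pos.mpr (hRpos w hw)) hz (exists_orth hn z)
        hw0 hw1 he0 hew heK hC (by rw [hsq, hR])
      rw [← hM] at hup
      exact Real.le_sqrt_of_sq_le hup

end Pool.Agent.Results.MP_ea326e_an.SharpGrowth
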